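import Pool.Agent.Helper81.CompC

set_option autoImplicit false

/-! # Polynomial-time arithmetic on binary numerals (HANDOFF B for MP_ed7369_lc)

Numbers coded in binary (`BN`), least significant bit first, inside helper81's framework
`PolyTime` for functions between types coded by trees. -/

namespace Pool.Agent.Bin

open Pool.Agent.Helper81.CC

/-- Natural numbers coded in binary. -/
@[ext] structure BN : Type where
  /-- the value -/
  val : ℕ
  deriving DecidableEq

/-- Value of a list of bits, least significant bit first. -/
def bval : List Bool → ℕ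
  | [] => 0
  | b :: l => b.toNat + 2 * bval l

@[simp] theorem bval_nil : bval [] = 0 := rfl
@[simp] theorem bval_cons (b : Bool) (l : List Bool) : bval (b :: l) = b.toNat + 2 * bval l := rfl

theorem bval_bits (n : ℕ) : bval (Nat.bits n) = n := by
  induction n using Nat.binaryRec' with
  | zero => simp
  | bit b n h ih =>
    rw [Nat.bits_append_bit n b h, bval_cons, ih, Nat.bit_val]
    ring

theorem bits_injective : Function.Injective Nat.bits :=
  Function.LeftInverse.injective bval_bits

theorem bval_append (l m : List Bool) : bval (l ++ m) = bval l + 2 ^ l.length * bval m := by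
  induction l with
  | nil => simp
  | cons b l ih => rw [List.cons_append, bval_cons, ih, bval_cons, List.length_cons, pow_succ]; ring

theorem bval_lt (l : List Bool) : bval l < 2 ^ l.length := by
  induction l with
  | nil => simp
  | cons b l ih =>
    rw [bval_cons, List.length_cons, pow_succ]
    have : b.toNat ≤ 1 := Bool.toNat_le b
    omega

theorem bval_take_succ (x : List Bool) (k : ℕ) :
    bval (x.take (k + 1)) = bval (x.take k) + 2 ^ k * (x.getD k false).toNat := by
  rw [List.take_add_one, bval_append]
  rcases Nat.lt_or_ge k x.length with h | h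
  · rw [List.getD_eq_getElem?_getD, List.getElem?_eq_getElem h, List.length_take,
      Nat.min_eq_left h.le]
    simp
  · rw [List.getD_eq_getElem?_getD, List.getElem?_eq_none h]
    simp

instance : ToData BN where
  toData n := toData (Nat.bits n.val)
  inj := fun _ _ h => BN.ext (bits_injective (ToData.inj h))

instance : Add BN := ⟨fun a b => ⟨a.val + b.val⟩⟩
instance : Sub BN := ⟨fun a b => ⟨a.val - b.val⟩⟩
instance : Mul BN := ⟨fun a b => ⟨a.val * b.val⟩⟩
instance : Div BN := ⟨fun a b => ⟨a.val / b.val⟩⟩
instance : Mod BN := ⟨fun a b => ⟨a.val % b.val⟩⟩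
instance : LE BN := ⟨fun a b => a.val ≤ b.val⟩
instance : LT BN := ⟨fun a b => a.val < b.val⟩
instance (a b : BN) : Decidable (a ≤ b) := inferInstanceAs (Decidable (a.val ≤ b.val))
instance (a b : BN) : Decidable (a < b) := inferInstanceAs (Decidable (a.val < b.val))

/-- From unary to binary. -/
def BN.ofNat (n : ℕ) : BN := ⟨n⟩
/-- Powers of two. -/
def BN.pow2 (n : ℕ) : BN := ⟨2 ^ n⟩
/-- Number of binary digits, in unary. -/
def BN.size (a : BN) : ℕ := (Nat.bits a.val).length
/-- The binary digits. -/
def BN.bits (a : BN) : List Bool := Nat.bits a.val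
/-- The number with given binary digits. -/
def BN.ofBits (l : List Bool) : BN := ⟨bval l⟩
/-- Sum of a list. -/
def BN.sum (l : List BN) : BN := ⟨(l.map BN.val).sum⟩
/-- Product of a list. -/
def BN.prod (l : List BN) : BN := ⟨(l.map BN.val).prod⟩

@[simp] theorem BN.val_add (a b : BN) : (a + b).val = a.val + b.val := rfl
@[simp] theorem BN.val_sub (a b : BN) : (a - b).val = a.val - b.val := rfl
@[simp] theorem BN.val_mul (a b : BN) : (a * b).val = a.val * b.val := rfl
@[simp] theorem BN.val_div (a b : BN) : (a / b).val = a.val / b.val := rfl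
@[simp] theorem BN.val_mod (a b : BN) : (a % b).val = a.val % b.val := rfl
theorem BN.le_def (a b : BN) : a ≤ b ↔ a.val ≤ b.val := Iff.rfl
theorem BN.lt_def (a b : BN) : a < b ↔ a.val < b.val := Iff.rfl
@[simp] theorem BN.val_ofNat (n : ℕ) : (BN.ofNat n).val = n := rfl
@[simp] theorem BN.val_pow2 (n : ℕ) : (BN.pow2 n).val = 2 ^ n := rfl
@[simp] theorem BN.val_ofBits (l : List Bool) : (BN.ofBits l).val = bval l := rfl
@[simp] theorem BN.val_sum (l : List BN) : (BN.sum l).val = (l.map BN.val).sum := rfl
@[simp] theorem BN.val_prod (l : List BN) : (BN.prod l).val = (l.map BN.val).prod := rfl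
@[simp] theorem BN.bval_bits (a : BN) : bval a.bits = a.val := Bin.bval_bits a.val
theorem BN.ofBits_bits (a : BN) : BN.ofBits a.bits = a := BN.ext (BN.bval_bits a)
theorem BN.size_eq (a : BN) : a.size = Nat.size a.val := (Nat.size_eq_bits_len a.val)
theorem BN.length_bits (a : BN) : a.bits.length = a.size := rfl

/-! ### Sizes -/

theorem sz_listBool_le : ∀ l : List Bool, sz l ≤ 4 * l.length + 1
  | [] => by simp
  | b :: l => by
    have := sz_listBool_le l
    have := sz_bool b
    simp only [sz_cons, List.length_cons]
    omega

theorem sz_BN (a : BN) : sz a = sz a.bits := rfl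

theorem sz_le_size (a : BN) : sz a ≤ 4 * a.size + 1 := sz_listBool_le _

theorem size_le_sz (a : BN) : a.size ≤ sz a := length_le_sz a.bits

theorem BN.val_lt_two_pow_size (a : BN) : a.val < 2 ^ a.size := by
  rw [BN.size_eq]; exact Nat.lt_size_self a.val

theorem BN.size_le_of_lt {a : BN} {n : ℕ} (h : a.val < 2 ^ n) : a.size ≤ n := by
  rw [BN.size_eq]; exact Nat.size_le.mpr h

theorem sz_le_of_lt {a : BN} {n : ℕ} (h : a.val < 2 ^ n) : sz a ≤ 4 * n + 1 := by
  have := sz_le_size a
  have := BN.size_le_of_lt h
  omega

theorem val_lt_two_pow_sz (a : BN) : a.val < 2 ^ sz a :=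
  (BN.val_lt_two_pow_size a).trans_le (Nat.pow_le_pow_right (by norm_num) (size_le_sz a))

/-! ### Bits -/

variable {α : Type} [ToData α]

@[fun_prop]
theorem PolyTime.bn_bits {f : α → BN} (hf : PolyTime f) : PolyTime (fun a => BN.bits (f a)) :=
  PolyTime.comp (g := BN.bits) (PolyTime.of_eq fun _ => rfl) hf

@[fun_prop]
theorem PolyTime.bn_size {f : α → BN} (hf : PolyTime f) : PolyTime (fun a => BN.size (f a)) :=
  PolyTime.length (PolyTime.bn_bits hf)

/-- One step of the removal of the leading zeros. -/
def trimStep (s : List Bool) (b : Bool) : List Bool :=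
  if (!b && s.isEmpty) = true then [] else b :: s

theorem bits_bval (l : List Bool) : Nat.bits (bval l) = l.reverse.foldl trimStep [] := by
  rw [List.foldl_reverse]
  induction l with
  | nil => simp
  | cons b l ih =>
    rw [List.foldr_cons, ← ih, bval_cons]
    have e : b.toNat + 2 * bval l = Nat.bit b (bval l) := by rw [Nat.bit_val]; ring
    rw [e]
    by_cases h : bval l = 0 → b = true
    · rw [Nat.bits_append_bit _ _ h, trimStep, if_neg]
      intro h'
      simp only [Bool.and_eq_true, Bool.not_eq_true', List.isEmpty_iff] at h'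
      have h0 : bval l = 0 := by
        rw [← bval_bits (bval l), h'.2]; rfl
      rw [h h0] at h'
      simp at h'
    · push Not at h
      obtain ⟨h0, h1⟩ := h
      have hb : b = false := by simpa using h1
      rw [h0, hb]
      simp [trimStep]

theorem polyTime_ofBits : PolyTime BN.ofBits := by
  have h := PolyTime.foldl_add (α := List Bool) (l := fun l => l.reverse)
    (s0 := fun _ => ([] : List Bool)) (step := fun _ s b => trimStep s b) (by fun_prop)
    (by fun_prop) (by unfold trimStep; fun_prop) (C := fun _ => 4) (PBd.const 4) (by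
      intro a s b _
      unfold trimStep
      have := sz_bool b
      split_ifs
      · simp only [sz_nil]; omega
      · simp only [sz_cons]; omega)
  refine PolyTime.castD h fun l => ⟨l, rfl, ?_⟩
  rw [← bits_bval]
  rfl

@[fun_prop]
theorem PolyTime.bn_ofBits {f : α → List Bool} (hf : PolyTime f) :
    PolyTime (fun a => BN.ofBits (f a)) := PolyTime.comp polyTime_ofBits hf

/-- A function given on bits. -/
theorem PolyTime.bn_of {f : α → BN} {L : α → List Bool} (hL : PolyTime L)
    (h : ∀ a, bval (L a) = (f a).val) : PolyTime f :=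
  PolyTime.congr (PolyTime.bn_ofBits hL) fun a => BN.ext (h a)

@[fun_prop]
theorem PolyTime.bn_pow2 {f : α → ℕ} (hf : PolyTime f) : PolyTime (fun a => BN.pow2 (f a)) :=
  PolyTime.bn_of (L := fun a => List.replicate (f a) false ++ [true]) (by fun_prop) fun a => by
    rw [bval_append]
    have : ∀ n, bval (List.replicate n false) = 0 := by
      intro n
      induction n with
      | zero => rfl
      | succ n ih => rw [List.replicate_succ, bval_cons, ih]; rfl
    rw [this]
    simp

/-! ### From unary to binary (after helper83) -/

/-- one step of the computation of the digits -/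
def bitStep (s : ℕ × List Bool) : ℕ × List Bool :=
  if s.1 = 0 then s else (s.1 / 2, s.2 ++ [decide (s.1 % 2 = 1)])

theorem bits_step {m : ℕ} (hm : m ≠ 0) : Nat.bits m = decide (m % 2 = 1) :: Nat.bits (m / 2) := by
  have h : m = Nat.bit (decide (m % 2 = 1)) (m / 2) := by
    rw [Nat.bit_val]
    rcases Nat.mod_two_eq_zero_or_one m with h | h <;> simp [h] <;> omega
  conv_lhs => rw [h]
  rw [Nat.bits_append_bit]
  intro h0
  rcases Nat.mod_two_eq_zero_or_one m with h | h
  · omega
  · simp [h]

theorem bitStep_iter (n : ℕ) : ∀ k, ((bitStep^[k] (n, [])).2 ++ Nat.bits (bitStep^[k] (n, [])).1 =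
    Nat.bits n) ∧ (bitStep^[k] (n, [])).1 ≤ n - k ∧ (bitStep^[k] (n, [])).2.length ≤ k := by
  intro k
  induction k with
  | zero => simp
  | succ k ih =>
    rw [Function.iterate_succ_apply']
    generalize bitStep^[k] (n, []) = s at ih
    obtain ⟨m, l⟩ := s
    simp only at ih
    by_cases hm : m = 0
    · simp only [bitStep, hm, if_true]
      rw [hm] at ih
      exact ⟨ih.1, by omega, by omega⟩
    · simp only [bitStep, hm, if_false]
      refine ⟨?_, ?_, ?_⟩
      · rw [← ih.1, bits_step hm]
        simp
      · omega
      · simp only [List.length_append, List.length_cons, List.length_nil]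
        omega

theorem polyTime_bits : PolyTime Nat.bits := by
  have h := PolyTime.iterate_bd (α := ℕ) (n := fun n => n) (s0 := fun n => (n, ([] : List Bool)))
    (step := fun _ s => bitStep s) (by fun_prop) (by fun_prop) (by unfold bitStep; fun_prop)
    (B := fun n => 6 * sz n + 6) (PBd.add (PBd.mul (PBd.const 6) PBd.sz) (PBd.const 6)) (by
      intro n k hk
      have h1 := bitStep_iter n k
      have h2 := sz_listBool_le (bitStep^[k] (n, [])).2
      rw [show bitStep^[k] (n, []) = ((bitStep^[k] (n, [])).1, (bitStep^[k] (n, [])).2) from rfl,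
        sz_pair, sz_nat, sz_nat]
      omega)
  refine PolyTime.congr (PolyTime.snd h) fun n => ?_
  have h1 := bitStep_iter n n
  have h2 : (bitStep^[n] (n, [])).1 = 0 := by omega
  rw [h2] at h1
  simpa using h1.1

@[fun_prop]
theorem PolyTime.bn_ofNat {f : α → ℕ} (hf : PolyTime f) : PolyTime (fun a => BN.ofNat (f a)) :=
  PolyTime.bn_of (PolyTime.comp polyTime_bits hf) fun a => bval_bits (f a)

/-! ### Addition -/

/-- One step of the addition: state = (carry, digits so far in reverse order). -/
def addStep (x y : List Bool) (s : Bool × List Bool) (i : ℕ) : Bool × List Bool :=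
  ((x.getD i false && y.getD i false) || (x.getD i false && s.1) || (y.getD i false && s.1),
    xor (xor (x.getD i false) (y.getD i false)) s.1 :: s.2)

theorem addStep_inv (x y : List Bool) (k : ℕ) :
    ((List.range k).foldl (addStep x y) (false, [])).2.length = k ∧
    bval ((List.range k).foldl (addStep x y) (false, [])).2.reverse +
      2 ^ k * (((List.range k).foldl (addStep x y) (false, [])).1).toNat =
      bval (x.take k) + bval (y.take k) := by
  induction k with
  | zero => simp
  | succ k ih =>
    rw [List.range_succ, List.foldl_append, List.foldl_cons, List.foldl_nil]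
    generalize (List.range k).foldl (addStep x y) (false, []) = s at ih
    obtain ⟨c, l⟩ := s
    simp only at ih
    obtain ⟨h1, h2⟩ := ih
    refine ⟨by simp [addStep, h1], ?_⟩
    simp only [addStep]
    rw [List.reverse_cons, bval_append, List.length_reverse, h1, bval_take_succ, bval_take_succ,
      pow_succ]
    generalize x.getD k false = a
    generalize y.getD k false = b
    cases a <;> cases b <;> cases c <;> simp at h2 ⊢ <;> omega

/-- Addition on lists of bits. -/
def addL (x y : List Bool) : List Bool :=
  (((List.range (max x.length y.length)).foldl (addStep x y) (false, [])).1 ::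
    ((List.range (max x.length y.length)).foldl (addStep x y) (false, [])).2).reverse

theorem bval_addL (x y : List Bool) : bval (addL x y) = bval x + bval y := by
  obtain ⟨h1, h2⟩ := addStep_inv x y (max x.length y.length)
  rw [addL, List.reverse_cons, bval_append, List.length_reverse, h1]
  rw [List.take_of_length_le (le_max_left _ _), List.take_of_length_le (le_max_right _ _)] at h2
  rw [← h2]
  simp

theorem polyTime_addFold : PolyTime (fun p : List Bool × List Bool =>
    (List.range (max p.1.length p.2.length)).foldl (addStep p.1 p.2) (false, [])) := by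
  refine PolyTime.foldl_add (step := fun (p : List Bool × List Bool) s i => addStep p.1 p.2 s i)
    (by fun_prop) (by fun_prop) (by unfold addStep; fun_prop) (C := fun _ => 8) (PBd.const 8) ?_
  intro p s i _
  obtain ⟨c, l⟩ := s
  have h1 := sz_bool ((p.1.getD i false && p.2.getD i false) || (p.1.getD i false && c) ||
    (p.2.getD i false && c))
  have h2 := sz_bool (xor (xor (p.1.getD i false) (p.2.getD i false)) c)
  simp only [addStep, sz_pair, sz_cons]
  omega

theorem polyTime_addL : PolyTime (fun p : List Bool × List Bool => addL p.1 p.2) := by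
  unfold addL
  exact PolyTime.reverse (PolyTime.list_cons (PolyTime.fst polyTime_addFold)
    (PolyTime.snd polyTime_addFold))

@[fun_prop]
theorem PolyTime.bn_add {f g : α → BN} (hf : PolyTime f) (hg : PolyTime g) :
    PolyTime (fun a => f a + g a) :=
  PolyTime.bn_of (L := fun a => addL (f a).bits (g a).bits)
    (PolyTime.comp (f := fun a => ((f a).bits, (g a).bits)) polyTime_addL
      (PolyTime.pair (PolyTime.bn_bits hf) (PolyTime.bn_bits hg)))
    fun a => by rw [bval_addL, BN.bval_bits, BN.bval_bits, BN.val_add]

/-! ### Subtraction and comparison -/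

/-- One step of the subtraction: state = (borrow, digits so far in reverse order). -/
def subStep (x y : List Bool) (s : Bool × List Bool) (i : ℕ) : Bool × List Bool :=
  ((!(x.getD i false) && (y.getD i false || s.1)) || (y.getD i false && s.1),
    xor (xor (x.getD i false) (y.getD i false)) s.1 :: s.2)

theorem subStep_inv (x y : List Bool) (k : ℕ) :
    ((List.range k).foldl (subStep x y) (false, [])).2.length = k ∧
    bval ((List.range k).foldl (subStep x y) (false, [])).2.reverse + bval (y.take k) =
      bval (x.take k) + 2 ^ k * (((List.range k).foldl (subStep x y) (false, [])).1).toNat := by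
  induction k with
  | zero => simp
  | succ k ih =>
    rw [List.range_succ, List.foldl_append, List.foldl_cons, List.foldl_nil]
    generalize (List.range k).foldl (subStep x y) (false, []) = s at ih
    obtain ⟨c, l⟩ := s
    simp only at ih
    obtain ⟨h1, h2⟩ := ih
    refine ⟨by simp [subStep, h1], ?_⟩
    simp only [subStep]
    rw [List.reverse_cons, bval_append, List.length_reverse, h1, bval_take_succ, bval_take_succ,
      pow_succ]
    generalize x.getD k false = a
    generalize y.getD k false = b
    cases a <;> cases b <;> cases c <;> simp at h2 ⊢ <;> omega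

/-- Truncated subtraction on lists of bits. -/
def subL (x y : List Bool) : List Bool :=
  if ((List.range (max x.length y.length)).foldl (subStep x y) (false, [])).1 = true then []
  else (((List.range (max x.length y.length)).foldl (subStep x y) (false, [])).2).reverse

theorem bval_subL (x y : List Bool) : bval (subL x y) = bval x - bval y := by
  obtain ⟨h1, h2⟩ := subStep_inv x y (max x.length y.length)
  rw [List.take_of_length_le (le_max_left _ _), List.take_of_length_le (le_max_right _ _)] at h2
  have h3 := bval_lt ((List.range (max x.length y.length)).foldl (subStep x y) (false, [])).2.reverse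
  rw [List.length_reverse, h1] at h3
  rw [subL]
  split_ifs with h
  · rw [h] at h2
    simp only [Bool.toNat_true, mul_one] at h2
    rw [bval_nil]
    omega
  · have h' : ((List.range (max x.length y.length)).foldl (subStep x y) (false, [])).1 = false := by
      simpa using h
    rw [h'] at h2
    simp only [Bool.toNat_false, mul_zero, add_zero] at h2
    omega

theorem polyTime_subFold : PolyTime (fun p : List Bool × List Bool =>
    (List.range (max p.1.length p.2.length)).foldl (subStep p.1 p.2) (false, [])) := by
  refine PolyTime.foldl_add (step := fun (p : List Bool × List Bool) s i => subStep p.1 p.2 s i)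
    (by fun_prop) (by fun_prop) (by unfold subStep; fun_prop) (C := fun _ => 8) (PBd.const 8) ?_
  intro p s i _
  obtain ⟨c, l⟩ := s
  have h1 := sz_bool ((!(p.1.getD i false) && (p.2.getD i false || c)) || (p.2.getD i false && c))
  have h2 := sz_bool (xor (xor (p.1.getD i false) (p.2.getD i false)) c)
  simp only [subStep, sz_pair, sz_cons]
  omega

theorem polyTime_subL : PolyTime (fun p : List Bool × List Bool => subL p.1 p.2) := by
  unfold subL
  exact PolyTime.ite (PolyTime.fst polyTime_subFold) (PolyTime.const _)
    (PolyTime.reverse (PolyTime.snd polyTime_subFold))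

@[fun_prop]
theorem PolyTime.bn_sub {f g : α → BN} (hf : PolyTime f) (hg : PolyTime g) :
    PolyTime (fun a => f a - g a) :=
  PolyTime.bn_of (L := fun a => subL (f a).bits (g a).bits)
    (PolyTime.comp (f := fun a => ((f a).bits, (g a).bits)) polyTime_subL
      (PolyTime.pair (PolyTime.bn_bits hf) (PolyTime.bn_bits hg)))
    fun a => by rw [bval_subL, BN.bval_bits, BN.bval_bits, BN.val_sub]

@[fun_prop]
theorem PolyTime.bn_le {f g : α → BN} [∀ a, Decidable (f a ≤ g a)] (hf : PolyTime f)
    (hg : PolyTime g) : PolyTime (fun a => decide (f a ≤ g a)) :=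
  PolyTime.congr (PolyTime.decide_eq (PolyTime.bn_sub hf hg) (PolyTime.const (⟨0⟩ : BN)))
    fun a => by
      rw [decide_eq_decide, BN.ext_iff, BN.val_sub, BN.le_def]
      exact Nat.sub_eq_zero_iff_le

@[fun_prop]
theorem PolyTime.bn_lt {f g : α → BN} [∀ a, Decidable (f a < g a)] (hf : PolyTime f)
    (hg : PolyTime g) : PolyTime (fun a => decide (f a < g a)) :=
  PolyTime.congr (PolyTime.decide_not (p := fun a => g a ≤ f a) (PolyTime.bn_le hg hf))
    fun a => by
      rw [decide_eq_decide, BN.le_def, BN.lt_def]
      omega

/-! ### Multiplication -/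

/-- One step of the multiplication by `y`. -/
def mulStep (y : BN) (s : BN) (b : Bool) : BN := s + s + (if b = true then y else ⟨0⟩)

theorem mulStep_fold (y : BN) : ∀ (l : List Bool) (s : BN),
    (l.foldl (mulStep y) s).val = s.val * 2 ^ l.length + y.val * bval l.reverse := by
  intro l
  induction l with
  | nil => intro s; simp
  | cons b l ih =>
    intro s
    rw [List.foldl_cons, ih, List.reverse_cons, bval_append, List.length_reverse,
      List.length_cons, pow_succ]
    cases b <;> simp [mulStep] <;> ring

@[fun_prop]
theorem PolyTime.bn_mul {f g : α → BN} (hf : PolyTime f) (hg : PolyTime g) :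
    PolyTime (fun a => f a * g a) := by
  have hf' : PolyTime (fun z : α × BN × Bool => f z.1) := PolyTime.comp hf (by fun_prop)
  have h := PolyTime.foldl_bd (l := fun a => (g a).bits.reverse) (s0 := fun _ => (⟨0⟩ : BN))
    (step := fun a s b => mulStep (f a) s b) (by fun_prop) (by fun_prop)
    (by unfold mulStep; fun_prop)
    (B := fun a => 4 * (sz (f a) + sz (g a)) + 1)
    (((PBd.const 4).mul (hf.bd.add hg.bd)).add (PBd.const 1)) (by
      intro a l' hl'
      apply sz_le_of_lt
      have h1 := mulStep_fold (f a) l' ⟨0⟩
      have h2 := bval_lt l'.reverse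
      have h3 : l'.length ≤ sz (g a) := by
        have h4 := hl'.length_le
        rw [List.length_reverse] at h4
        exact h4.trans (size_le_sz (g a))
      have h5 := val_lt_two_pow_sz (f a)
      rw [List.length_reverse] at h2
      have h6 : bval l'.reverse < 2 ^ sz (g a) :=
        h2.trans_le (Nat.pow_le_pow_right (by norm_num) h3)
      calc (l'.foldl (mulStep (f a)) ⟨0⟩).val = (f a).val * bval l'.reverse := by
            rw [h1]; simp
        _ < 2 ^ sz (f a) * 2 ^ sz (g a) := Nat.mul_lt_mul'' h5 h6
        _ = 2 ^ (sz (f a) + sz (g a)) := (pow_add _ _ _).symm)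
  refine PolyTime.congr h fun a => BN.ext ?_
  have h1 := mulStep_fold (f a) (g a).bits.reverse ⟨0⟩
  rw [List.reverse_reverse, BN.bval_bits] at h1
  simpa using h1

/-! ### Division -/

/-- One step of the division by `y`: state = (quotient, remainder). -/
def divStep (y : BN) (s : BN × BN) (b : Bool) : BN × BN :=
  if (¬ y = ⟨0⟩) ∧ y ≤ s.2 + s.2 + (if b = true then ⟨1⟩ else ⟨0⟩) then
    (s.1 + s.1 + ⟨1⟩, s.2 + s.2 + (if b = true then ⟨1⟩ else ⟨0⟩) - y)
  else (s.1 + s.1, s.2 + s.2 + (if b = true then ⟨1⟩ else ⟨0⟩))

theorem divStep_eq (y : BN) (v : ℕ) (b : Bool) :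
    divStep y (⟨v / y.val⟩, ⟨v % y.val⟩) b =
      (⟨(2 * v + b.toNat) / y.val⟩, ⟨(2 * v + b.toNat) % y.val⟩) := by
  have hb : ((if b = true then ⟨1⟩ else ⟨0⟩ : BN)).val = b.toNat := by cases b <;> rfl
  have hb1 : b.toNat ≤ 1 := Bool.toNat_le b
  obtain ⟨n⟩ := y
  rcases Nat.eq_zero_or_pos n with rfl | hn
  · have : divStep ⟨0⟩ (⟨v / 0⟩, ⟨v % 0⟩) b =
      (⟨v / 0⟩ + ⟨v / 0⟩, ⟨v % 0⟩ + ⟨v % 0⟩ + (if b = true then ⟨1⟩ else ⟨0⟩)) := by
      unfold divStep
      rw [if_neg]
      simp
    rw [this]
    ext
    · simp
    · simp only [BN.val_add, hb, Nat.mod_zero]; ring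
  · have hdm := Nat.div_add_mod v n
    have hlt := Nat.mod_lt v hn
    have hne : ¬ ((⟨n⟩ : BN) = ⟨0⟩) := by
      intro h
      rw [BN.ext_iff] at h
      simp only at h
      omega
    by_cases hc : n ≤ v % n + v % n + b.toNat
    · have h1 : (2 * v + b.toNat) / n = v / n + v / n + 1 ∧
          (2 * v + b.toNat) % n = v % n + v % n + b.toNat - n := by
        rw [Nat.div_mod_unique hn]
        constructor
        · have : n * (v / n + v / n + 1) = n * (v / n) + n * (v / n) + n := by ring
          rw [this]
          omega
        · omega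
      unfold divStep
      rw [if_pos]
      · ext
        · simp only [BN.val_add]; exact h1.1.symm
        · simp only [BN.val_add, BN.val_sub, hb]; exact h1.2.symm
      · refine ⟨hne, ?_⟩
        rw [BN.le_def]
        simp only [BN.val_add, hb]
        exact hc
    · have h1 : (2 * v + b.toNat) / n = v / n + v / n ∧
          (2 * v + b.toNat) % n = v % n + v % n + b.toNat := by
        rw [Nat.div_mod_unique hn]
        constructor
        · have : n * (v / n + v / n) = n * (v / n) + n * (v / n) := by ring
          rw [this]
          omega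
        · omega
      unfold divStep
      rw [if_neg]
      · ext
        · simp only [BN.val_add]; exact h1.1.symm
        · simp only [BN.val_add, hb]; exact h1.2.symm
      · rintro ⟨_, h⟩
        rw [BN.le_def] at h
        simp only [BN.val_add, hb] at h
        exact hc h

theorem divStep_fold (y : BN) : ∀ (l : List Bool) (v : ℕ),
    l.foldl (divStep y) (⟨v / y.val⟩, ⟨v % y.val⟩) =
      (⟨(v * 2 ^ l.length + bval l.reverse) / y.val⟩,
        ⟨(v * 2 ^ l.length + bval l.reverse) % y.val⟩) := by
  intro l
  induction l with
  | nil => intro v; simp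
  | cons b l ih =>
    intro v
    rw [List.foldl_cons, divStep_eq, ih, List.reverse_cons, bval_append, List.length_reverse,
      List.length_cons, pow_succ]
    have : (2 * v + b.toNat) * 2 ^ l.length + bval l.reverse =
        v * (2 ^ l.length * 2) + (bval l.reverse + 2 ^ l.length * bval [b]) := by
      simp only [bval_cons, bval_nil]
      ring
    rw [this]

theorem polyTime_divMod : PolyTime (fun p : BN × BN =>
    ((⟨p.1.val / p.2.val⟩ : BN), (⟨p.1.val % p.2.val⟩ : BN))) := by
  have h := PolyTime.foldl_bd (α := BN × BN) (l := fun p => p.1.bits.reverse)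
    (s0 := fun _ => ((⟨0⟩ : BN), (⟨0⟩ : BN)))
    (step := fun p s b => divStep p.2 s b) (by fun_prop) (by fun_prop)
    (by unfold divStep; fun_prop)
    (B := fun p => 8 * sz p + 3)
    (((PBd.const 8).mul PBd.sz).add (PBd.const 3)) (by
      rintro ⟨x, y⟩ l' hl'
      have h0 : ((⟨0⟩ : BN), (⟨0⟩ : BN)) = (⟨0 / y.val⟩, ⟨0 % y.val⟩) := by simp
      simp only
      rw [h0, divStep_fold, zero_mul, zero_add]
      have h2 := bval_lt l'.reverse
      have h3 : l'.length ≤ sz x := by
        have h4 := hl'.length_le
        rw [List.length_reverse] at h4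
        exact h4.trans (size_le_sz x)
      rw [List.length_reverse] at h2
      have h6 : bval l'.reverse < 2 ^ sz x := h2.trans_le (Nat.pow_le_pow_right (by norm_num) h3)
      have h7 : sz (⟨bval l'.reverse / y.val⟩ : BN) ≤ 4 * sz x + 1 :=
        sz_le_of_lt (lt_of_le_of_lt (Nat.div_le_self _ _) h6)
      have h8 : sz (⟨bval l'.reverse % y.val⟩ : BN) ≤ 4 * sz x + 1 :=
        sz_le_of_lt (lt_of_le_of_lt (Nat.mod_le _ _) h6)
      rw [sz_pair, sz_pair]
      omega)
  refine PolyTime.congr h ?_
  rintro ⟨x, y⟩
  have h0 : ((⟨0⟩ : BN), (⟨0⟩ : BN)) = (⟨0 / y.val⟩, ⟨0 % y.val⟩) := by simp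
  simp only
  rw [h0, divStep_fold, zero_mul, zero_add, List.reverse_reverse, BN.bval_bits]

@[fun_prop]
theorem PolyTime.bn_div {f g : α → BN} (hf : PolyTime f) (hg : PolyTime g) :
    PolyTime (fun a => f a / g a) :=
  PolyTime.fst (PolyTime.comp (f := fun a => (f a, g a)) polyTime_divMod (PolyTime.pair hf hg))

@[fun_prop]
theorem PolyTime.bn_mod {f g : α → BN} (hf : PolyTime f) (hg : PolyTime g) :
    PolyTime (fun a => f a % g a) :=
  PolyTime.snd (PolyTime.comp (f := fun a => (f a, g a)) polyTime_divMod (PolyTime.pair hf hg))

/-! ### Sums and products -/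

theorem two_le_pow_sz {β : Type} [ToData β] (b : β) : 2 ≤ 2 ^ sz b := by
  have h := sz_pos b
  calc 2 = 2 ^ 1 := rfl
    _ ≤ 2 ^ sz b := Nat.pow_le_pow_right (by norm_num) h

theorem sum_lt (l : List BN) : (l.map BN.val).sum < 2 ^ sz l := by
  induction l with
  | nil => simp
  | cons x l ih =>
    have h1 := val_lt_two_pow_sz x
    have h2 := two_le_pow_sz x
    have h3 := two_le_pow_sz l
    rw [List.map_cons, List.sum_cons, sz_cons, pow_succ, pow_add]
    nlinarith

theorem prod_lt (l : List BN) : (l.map BN.val).prod < 2 ^ sz l := by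
  induction l with
  | nil => simp
  | cons x l ih =>
    have h1 := val_lt_two_pow_sz x
    have h4 : x.val * (l.map BN.val).prod < 2 ^ sz x * 2 ^ sz l := Nat.mul_lt_mul'' h1 ih
    rw [List.map_cons, List.prod_cons, sz_cons, pow_succ, pow_add]
    omega

theorem sz_prefix_le {β : Type} [ToData β] {l' l : List β} (h : l' <+: l) : sz l' ≤ sz l := by
  obtain ⟨m, rfl⟩ := h
  have h1 := sz_append l' m
  have h2 := sz_pos m
  omega

theorem foldl_add_val : ∀ (l : List BN) (s : BN),
    (l.foldl (fun s x => s + x) s).val = s.val + (l.map BN.val).sum := by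
  intro l
  induction l with
  | nil => intro s; simp
  | cons x l ih => intro s; rw [List.foldl_cons, ih, List.map_cons, List.sum_cons, BN.val_add]; ring

theorem foldl_mul_val : ∀ (l : List BN) (s : BN),
    (l.foldl (fun s x => s * x) s).val = s.val * (l.map BN.val).prod := by
  intro l
  induction l with
  | nil => intro s; simp
  | cons x l ih =>
    intro s; rw [List.foldl_cons, ih, List.map_cons, List.prod_cons, BN.val_mul]; ring

@[fun_prop]
theorem PolyTime.bn_sum {f : α → List BN} (hf : PolyTime f) : PolyTime (fun a => BN.sum (f a)) := by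
  have h := PolyTime.foldl_bd (l := f) (s0 := fun _ => (⟨0⟩ : BN))
    (step := fun _ s x => s + x) hf (by fun_prop) (by fun_prop)
    (B := fun a => 4 * sz (f a) + 1) (((PBd.const 4).mul hf.bd).add (PBd.const 1)) (by
      intro a l' hl'
      apply sz_le_of_lt
      rw [foldl_add_val, zero_add]
      exact (sum_lt l').trans_le (Nat.pow_le_pow_right (by norm_num) (sz_prefix_le hl')))
  exact PolyTime.congr h fun a => BN.ext (by rw [foldl_add_val]; simp)

@[fun_prop]
theorem PolyTime.bn_prod {f : α → List BN} (hf : PolyTime f) :
    PolyTime (fun a => BN.prod (f a)) := by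
  have h := PolyTime.foldl_bd (l := f) (s0 := fun _ => (⟨1⟩ : BN))
    (step := fun _ s x => s * x) hf (by fun_prop) (by fun_prop)
    (B := fun a => 4 * sz (f a) + 1) (((PBd.const 4).mul hf.bd).add (PBd.const 1)) (by
      intro a l' hl'
      apply sz_le_of_lt
      rw [foldl_mul_val, one_mul]
      exact (prod_lt l').trans_le (Nat.pow_le_pow_right (by norm_num) (sz_prefix_le hl')))
  exact PolyTime.congr h fun a => BN.ext (by rw [foldl_mul_val]; simp)

end Pool.Agent.Bin
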