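import Pool.Agent.Helper7.Comm.Brackets

set_option autoImplicit false

/-! # The weighted Dynkin–Specht–Wever theorem (LEMMA H7-C for MP_76db9d_al) -/

set_option linter.unusedSectionVars false

namespace Pool.Agent.Helper59.Dynkin

open Pool.Agent.Helper7.Comm Pool.Agent.Helper7.Comm.NC

variable {X : Type*} {K : Type*} [CommRing K]

/-- The Euler operator: multiplication of the coefficient of `w` by the length of `w`. -/
def Eu (f : NC X K) : NC X K := ⟨fun w => (w.length : K) * f w⟩

theorem Eu_apply (f : NC X K) (w : List X) : Eu f w = (w.length : K) * f w := rfl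

theorem Eu_mul (f g : NC X K) : Eu (f * g) = Eu f * g + f * Eu g := by
  ext w
  rw [Eu_apply, NC.add_apply, mul_apply, mul_apply, mul_apply, Finset.mul_sum,
    ← Finset.sum_add_distrib]
  refine Finset.sum_congr rfl fun i hi => ?_
  simp only [Finset.mem_range] at hi
  rw [Eu_apply, Eu_apply]
  have h : (w.length : K) = ((w.take i).length : K) + ((w.drop i).length : K) := by
    rw [← Nat.cast_add, ← List.length_append, List.take_append_drop]
  rw [h]; ring

theorem Eu_one : Eu (1 : NC X K) = 0 := by
  ext w
  cases w with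
  | nil => simp [Eu_apply]
  | cons a w => simp [Eu_apply]

theorem Eu_of_isHom {n : ℕ} {f : NC X K} (hf : IsHom n f) : Eu f = (n : K) • f := by
  ext w
  rw [Eu_apply, NC.smul_apply, smul_eq_mul]
  by_cases hw : w.length = n
  · rw [hw]
  · rw [hf w hw, mul_zero, mul_zero]

/-- The antipode. -/
def An (f : NC X K) : NC X K := ⟨fun w => (-1) ^ w.length * f w.reverse⟩

theorem An_apply (f : NC X K) (w : List X) : An f w = (-1) ^ w.length * f w.reverse := rfl

theorem An_add (f g : NC X K) : An (f + g) = An f + An g := by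
  ext w; simp only [An_apply, NC.add_apply]; ring

theorem An_mul (f g : NC X K) : An (f * g) = An g * An f := by
  have h := rev_mul f g
  ext w
  have h1 : (f * g) w.reverse = (rev g * rev f) w := by rw [← h]; rfl
  rw [An_apply, h1, mul_apply, mul_apply, Finset.mul_sum]
  refine Finset.sum_congr rfl fun i hi => ?_
  simp only [rev_apply, An_apply]
  have h2 : (-1 : K) ^ w.length = (-1) ^ (w.take i).length * (-1) ^ (w.drop i).length := by
    rw [← pow_add, ← List.length_append, List.take_append_drop]
  rw [h2]; ring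

theorem An_letter [DecidableEq X] (x : X) : An (letter x : NC X K) = -letter x := by
  ext w
  rw [An_apply, NC.neg_apply]
  simp only [letter, mk_apply]
  by_cases h : w = [x]
  · subst h; simp
  · rw [if_neg, if_neg h]
    · simp
    · intro h'
      apply h
      rw [← List.reverse_reverse w, h']
      rfl

/-- Inner antipode. -/
def AnI (F : NC X (NC X K)) : NC X (NC X K) := ⟨fun a => An (F a)⟩

/-- Outer Euler operator. -/
def EuO (F : NC X (NC X K)) : NC X (NC X K) := ⟨fun a => (a.length : K) • F a⟩

/-- The multiplication map of the (completed) tensor square. -/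
def mm (F : NC X (NC X K)) : NC X K :=
  ⟨fun w => ∑ i ∈ Finset.range (w.length + 1), F (w.take i) (w.drop i)⟩

theorem mm_apply (F : NC X (NC X K)) (w : List X) :
    mm F w = ∑ i ∈ Finset.range (w.length + 1), F (w.take i) (w.drop i) := rfl

theorem mm_add (F G : NC X (NC X K)) : mm (F + G) = mm F + mm G := by
  ext w
  rw [mm_apply, NC.add_apply, mm_apply, mm_apply, ← Finset.sum_add_distrib]
  rfl

theorem D_mm_eq (F : NC X (NC X K)) (x : X) :
    D x (mm F) = D x (F []) + mm (D x F) := by
  ext w
  rw [D_apply, mm_apply, List.length_cons, Finset.sum_range_succ' _ (w.length + 1), add_comm]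
  rfl

/-- `m (f ⊗ g · F) = f * m F` for the left tensor factor. -/
theorem mm_T1_mul (f : NC X K) (F : NC X (NC X K)) : mm (T1 f * F) = f * mm F := by
  have key : ∀ (w : List X) (f : NC X K) (F : NC X (NC X K)),
      mm (T1 f * F) w = (f * mm F) w := by
    intro w
    induction w with
    | nil =>
      intro f F
      rw [mm_apply, NC.mul_nil, mm_apply]
      simp only [List.length_nil, zero_add, Finset.range_one, Finset.sum_singleton, List.take_nil,
        List.drop_nil]
      rw [T1_mul_apply]
      rfl
    | cons x w ih =>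
      intro f F
      have h1 : mm (T1 f * F) (x :: w) = D x (mm (T1 f * F)) w := rfl
      rw [h1, D_mm_eq, D_mul, NC.add_apply, mul_cons]
      have h2 : (T1 f * F) [] = f [] • F [] := by
        rw [NC.mul_nil, T1_apply, C_eq_smul, smul_one_mul]
      have h3 : (T1 f [] • D x F : NC X (NC X K)) = f [] • D x F := by
        ext a b
        rw [NC.smul_apply, NC.smul_apply, T1_apply, smul_eq_mul, C_mul_apply]
        rfl
      have h4 : D x (T1 f) = T1 (D x f) := rfl
      rw [h2, h3, h4, mm_add, NC.add_apply, ih (D x f) F]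
      have h5 : mm (f [] • D x F) = f [] • mm (D x F) := by
        ext w
        rw [mm_apply, NC.smul_apply, mm_apply, Finset.smul_sum]
        rfl
      have h6 : mm F (x :: w) = D x (mm F) w := rfl
      rw [h5, h6, D_mm_eq]
      simp only [NC.smul_apply, NC.add_apply, D_smul, smul_eq_mul]
      ring
  ext w
  exact key w f F

/-- Right multiplication of the right tensor factor. -/
theorem mm_mul_T2 (F : NC X (NC X K)) (g : NC X K) : mm (F * T2 g) = mm F * g := by
  have key : ∀ (w : List X) (F : NC X (NC X K)),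
      mm (F * T2 g) w = (mm F * g) w := by
    intro w
    induction w with
    | nil =>
      intro F
      rw [mm_apply, NC.mul_nil, mm_apply]
      simp only [List.length_nil, zero_add, Finset.range_one, Finset.sum_singleton, List.take_nil,
        List.drop_nil]
      rw [mul_T2_apply]
      rfl
    | cons x w ih =>
      intro F
      have h1 : mm (F * T2 g) (x :: w) = D x (mm (F * T2 g)) w := rfl
      have h2 : D x (F * T2 g) = D x F * T2 g := by
        ext a b
        rw [D_apply, mul_T2_apply, mul_T2_apply]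
        rfl
      rw [h1, D_mm_eq, h2, NC.add_apply, ih, mul_T2_apply, D_mul, mul_cons, D_mm_eq, add_mul]
      simp only [NC.add_apply, NC.smul_apply, smul_eq_mul]
      have h3 : mm F [] = F [] [] := by
        rw [mm_apply]
        simp
      have h4 : D x g w = g (x :: w) := rfl
      rw [h3, h4]
      ring
  ext w
  exact key w F

theorem AnI_T1_mul (f : NC X K) (F : NC X (NC X K)) : AnI (T1 f * F) = T1 f * AnI F := by
  ext a b
  have h1 : AnI (T1 f * F) a b = (-1) ^ b.length * (T1 f * F) a b.reverse := rfl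
  rw [h1, T1_mul_apply, T1_mul_apply, mul_apply, mul_apply, Finset.mul_sum]
  refine Finset.sum_congr rfl fun i _ => ?_
  simp only [mk_apply]
  have h2 : AnI F (a.drop i) b = (-1) ^ b.length * F (a.drop i) b.reverse := rfl
  rw [h2]; ring

theorem AnI_T2_mul (f : NC X K) (F : NC X (NC X K)) : AnI (T2 f * F) = AnI F * T2 (An f) := by
  ext a b
  have h1 : AnI (T2 f * F) a = An ((T2 f * F) a) := rfl
  rw [h1, T2_mul_apply, An_mul, mul_T2_apply]
  rfl

theorem AnI_add (F G : NC X (NC X K)) : AnI (F + G) = AnI F + AnI G := by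
  ext a b
  have h1 : AnI (F + G) a = An (F a + G a) := rfl
  rw [h1, An_add]
  rfl

theorem EuO_add (F G : NC X (NC X K)) : EuO (F + G) = EuO F + EuO G := by
  ext a b
  have h1 : EuO (F + G) a b = (a.length : K) * (F a b + G a b) := rfl
  have h2 : (EuO F + EuO G) a b = (a.length : K) * F a b + (a.length : K) * G a b := rfl
  rw [h1, h2, mul_add]

theorem EuO_T1_mul (f : NC X K) (F : NC X (NC X K)) :
    EuO (T1 f * F) = T1 (Eu f) * F + T1 f * EuO F := by
  ext a b
  have h1 : EuO (T1 f * F) a b = (a.length : K) * (T1 f * F) a b := rfl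
  rw [h1, NC.add_apply, NC.add_apply, T1_mul_apply, T1_mul_apply, T1_mul_apply]
  have h2 := congrArg (fun G : NC X K => G a) (Eu_mul f (⟨fun a' => F a' b⟩ : NC X K))
  simp only [Eu_apply, NC.add_apply] at h2
  rw [h2]
  rfl

theorem EuO_T2_mul (f : NC X K) (F : NC X (NC X K)) :
    EuO (T2 f * F) = T2 f * EuO F := by
  ext a b
  have h1 : EuO (T2 f * F) a = (a.length : K) • (T2 f * F) a := rfl
  have h2 : EuO F a = (a.length : K) • F a := rfl
  rw [h1, T2_mul_apply, T2_mul_apply, h2, mul_smul_comm]

/-- `m ∘ (id ⊗ S)`. -/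
def mS (F : NC X (NC X K)) : NC X K := mm (AnI F)

/-- `m ∘ (E ⊗ S)`. -/
def mE (F : NC X (NC X K)) : NC X K := mm (AnI (EuO F))

theorem mS_add (F G : NC X (NC X K)) : mS (F + G) = mS F + mS G := by
  unfold mS; rw [AnI_add, mm_add]

theorem mE_add (F G : NC X (NC X K)) : mE (F + G) = mE F + mE G := by
  unfold mE; rw [EuO_add, AnI_add, mm_add]

theorem mS_T1_mul (f : NC X K) (F : NC X (NC X K)) : mS (T1 f * F) = f * mS F := by
  unfold mS; rw [AnI_T1_mul, mm_T1_mul]

theorem mS_T2_mul (f : NC X K) (F : NC X (NC X K)) : mS (T2 f * F) = mS F * An f := by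
  unfold mS; rw [AnI_T2_mul, mm_mul_T2]

theorem mE_T1_mul (f : NC X K) (F : NC X (NC X K)) :
    mE (T1 f * F) = Eu f * mS F + f * mE F := by
  unfold mE mS; rw [EuO_T1_mul, AnI_add, mm_add, AnI_T1_mul, mm_T1_mul, AnI_T1_mul, mm_T1_mul]

theorem mE_T2_mul (f : NC X K) (F : NC X (NC X K)) : mE (T2 f * F) = mE F * An f := by
  unfold mE; rw [EuO_T2_mul, AnI_T2_mul, mm_mul_T2]

/-- Additive map version of `mS`. -/
def mSHom : NC X (NC X K) →+ NC X K := AddMonoidHom.mk' mS mS_add

/-- Additive map version of `mE`. -/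
def mEHom : NC X (NC X K) →+ NC X K := AddMonoidHom.mk' mE mE_add

theorem mS_sum {ι : Type*} (s : Finset ι) (F : ι → NC X (NC X K)) :
    mS (∑ i ∈ s, F i) = ∑ i ∈ s, mS (F i) := map_sum (mSHom (X := X) (K := K)) F s

theorem mE_sum {ι : Type*} (s : Finset ι) (F : ι → NC X (NC X K)) :
    mE (∑ i ∈ s, F i) = ∑ i ∈ s, mE (F i) := map_sum (mEHom (X := X) (K := K)) F s

theorem An_C (r : K) : An (C r : NC X K) = C r := by
  ext w
  cases w with
  | nil => simp [An_apply]
  | cons x w =>
    rw [An_apply]
    have : ∃ y v, (x :: w).reverse = y :: v := by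
      obtain ⟨y, v, h⟩ := List.exists_cons_of_ne_nil (l := (x :: w).reverse) (by simp)
      exact ⟨y, v, h⟩
    obtain ⟨y, v, h⟩ := this
    rw [h]; simp

theorem mS_C_C (r : K) : mS (C (C r) : NC X (NC X K)) = C r := by
  have h1 : AnI (C (C r) : NC X (NC X K)) = T2 (C r) := by
    ext a b
    have : AnI (C (C r) : NC X (NC X K)) a = An ((C (C r) : NC X (NC X K)) a) := rfl
    rw [this]
    cases a with
    | nil => rw [C_nil, An_C]; rfl
    | cons x a =>
      rw [C_cons]
      have h0 : An (0 : NC X K) = 0 := by ext w; simp [An_apply]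
      rw [h0]; rfl
  have h2 : mm (1 : NC X (NC X K)) = 1 := by
    ext w
    rw [mm_apply]
    cases w with
    | nil => simp
    | cons x w =>
      rw [Finset.sum_eq_zero]
      · rfl
      · intro i hi
        cases i with
        | zero => simp
        | succ i => simp
  unfold mS
  rw [h1, ← one_mul (T2 (C r)), mm_mul_T2, h2, one_mul]

theorem mS_one : mS (1 : NC X (NC X K)) = 1 := by
  have h := mS_C_C (X := X) (K := K) 1
  have h1 : (C (C 1) : NC X (NC X K)) = 1 := by
    have := (CHom (X := X) (R := NC X K)).map_one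
    rw [CHom_apply] at this
    have h2 : (C 1 : NC X K) = 1 := (CHom (X := X) (R := K)).map_one
    rw [h2]; exact this
  rw [h1] at h
  rw [h]
  exact (CHom (X := X) (R := K)).map_one

theorem mE_C (f : NC X K) : mE (C f : NC X (NC X K)) = 0 := by
  have h1 : EuO (C f : NC X (NC X K)) = 0 := by
    ext a b
    have : EuO (C f : NC X (NC X K)) a = (a.length : K) • (C f : NC X (NC X K)) a := rfl
    rw [this]
    cases a with
    | nil => simp
    | cons x a => simp
  unfold mE
  rw [h1]
  ext w
  rw [mm_apply]
  refine Finset.sum_eq_zero fun i _ => ?_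
  have : AnI (0 : NC X (NC X K)) (w.take i) = An (0 : NC X K) := rfl
  rw [this]
  simp [An_apply]

theorem mE_one : mE (1 : NC X (NC X K)) = 0 := by
  have h := mE_C (X := X) (K := K) 1
  have h1 : (C 1 : NC X (NC X K)) = 1 := (CHom (X := X) (R := NC X K)).map_one
  rwa [h1] at h

theorem mul_congr_of_nil_right {h A B : NC X K} (h0 : h [] = 0) {w : List X}
    (H : ∀ w' : List X, w'.length < w.length → A w' = B w') : (A * h) w = (B * h) w := by
  rw [mul_apply, mul_apply]
  refine Finset.sum_congr rfl fun i hi => ?_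
  simp only [Finset.mem_range] at hi
  rcases Nat.lt_or_ge i w.length with hi0 | hi0
  · rw [H _ (by simp; omega)]
  · have : w.drop i = [] := List.drop_eq_nil_of_le hi0
    rw [this, h0, mul_zero, mul_zero]

section

variable [Fintype X] [DecidableEq X]

theorem mS_Δ (f : NC X K) : mS (Δ f) = C (f []) := by
  have rec_eq : ∀ f : NC X K, mS (Δ f) = C (f []) +
      ∑ x, ((letter x : NC X K) * mS (Δ (D x f)) - mS (Δ (D x f)) * letter x) := by
    intro f
    conv_lhs => rw [Δ_eq f]
    rw [mS_add, mS_C_C, mS_sum]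
    congr 1
    refine Finset.sum_congr rfl fun x _ => ?_
    rw [add_mul, mS_add, mS_T1_mul, mS_T2_mul, An_letter, mul_neg, sub_eq_add_neg]
  have key : ∀ (n : ℕ) (f : NC X K) (w : List X), w.length ≤ n →
      mS (Δ f) w = (C (f []) : NC X K) w := by
    intro n
    induction n with
    | zero =>
      intro f w hw
      obtain rfl : w = [] := by
        cases w
        · rfl
        · simp at hw
      rw [rec_eq, NC.add_apply, NC.sum_apply, Finset.sum_eq_zero, add_zero]
      intro x _
      rw [NC.sub_apply, NC.mul_nil, NC.mul_nil, letter_nil]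
      ring
    | succ n ih =>
      intro f w hw
      rw [rec_eq, NC.add_apply, NC.sum_apply, Finset.sum_eq_zero, add_zero]
      intro x _
      rw [NC.sub_apply]
      have e1 : ((letter x : NC X K) * mS (Δ (D x f))) w =
          ((letter x : NC X K) * (C (D x f []) : NC X K)) w :=
        mul_congr_of_nil (letter_nil x) fun w' hw' => ih _ _ (by omega)
      have e2 : (mS (Δ (D x f)) * (letter x : NC X K)) w =
          ((C (D x f []) : NC X K) * (letter x : NC X K)) w :=
        mul_congr_of_nil_right (letter_nil x) fun w' hw' => ih _ _ (by omega)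
      rw [e1, e2, mul_C_apply, C_mul_apply]
      ring
  ext w
  exact key _ f w le_rfl

/-- The operator `γ = m ∘ (E ⊗ S) ∘ Δ`. -/
def gam (f : NC X K) : NC X K := mE (Δ f)

theorem gam_add (f g : NC X K) : gam (f + g) = gam f + gam g := by
  unfold gam; rw [Δ_add, mE_add]

/-- Additive map version of `gam`. -/
def gamHom : NC X K →+ NC X K := AddMonoidHom.mk' gam gam_add

theorem gam_sum {ι : Type*} (s : Finset ι) (F : ι → NC X K) :
    gam (∑ i ∈ s, F i) = ∑ i ∈ s, gam (F i) := map_sum (gamHom (X := X) (K := K)) F s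

theorem gam_C (r : K) : gam (C r : NC X K) = 0 := by
  unfold gam
  have : Δ (C r : NC X K) = C (C r) := by
    rw [C_eq_smul, Δ_smul, Δ_one]
    ext a b
    cases a with
    | nil => rw [C_nil]; rfl
    | cons x a => rw [C_cons, NC.smul_apply, NC.one_cons, smul_zero]
  rw [this, mE_C]

theorem gam_of_isLie {f : NC X K} (hf : IsLie f) : gam f = Eu f := by
  unfold gam
  unfold IsLie at hf
  rw [hf, mE_add]
  have h1 : mE (T1 f) = Eu f := by
    have := mE_T1_mul f (1 : NC X (NC X K))
    rw [mul_one, mS_one, mE_one, mul_one, mul_zero, add_zero] at this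
    exact this
  have h2 : mE (T2 f) = 0 := by
    have := mE_T2_mul f (1 : NC X (NC X K))
    rw [mul_one, mE_one, zero_mul] at this
    exact this
  rw [h1, h2, add_zero]

theorem An_of_isLie {f : NC X K} (hf : IsLie f) : An f = -f := by
  have h0 := mS_Δ f
  have hl : f [] = 0 := hf.nil
  unfold IsLie at hf
  rw [hf, mS_add, hl] at h0
  have h1 : mS (T1 f) = f := by
    have := mS_T1_mul f (1 : NC X (NC X K))
    rw [mul_one, mS_one, mul_one] at this
    exact this
  have h2 : mS (T2 f) = An f := by
    have := mS_T2_mul f (1 : NC X (NC X K))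
    rw [mul_one, mS_one, one_mul] at this
    exact this
  have h3 : (C (0 : K) : NC X K) = 0 := CHom.map_zero
  rw [h1, h2, h3] at h0
  exact (neg_eq_of_add_eq_zero_right h0).symm

theorem gam_mul_of_isLie {h : NC X K} (hh : IsLie h) (g : NC X K) :
    gam (h * g) = g [] • Eu h + ⁅h, gam g⁆ := by
  have hA := An_of_isLie hh
  unfold gam
  unfold IsLie at hh
  rw [Δ_mul, hh, add_mul, mE_add, mE_T1_mul, mE_T2_mul, mS_Δ, hA, Ring.lie_def, C_eq_smul,
    mul_smul_comm, mul_one, mul_neg]
  abel

end

section dyn

variable {κ : Type} [Fintype κ] [DecidableEq κ] {F' : Type} [Field F']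

theorem rb_cons {k : κ} {W : List κ} (hW : W ≠ []) :
    (rb (k :: W) : NC κ F') = ⁅(letter k : NC κ F'), rb W⁆ := by
  cases W with
  | nil => exact absurd rfl hW
  | cons l W => rfl

theorem lastWt_cons (d : κ → ℕ) {k : κ} {W : List κ} (hW : W ≠ []) :
    lastWt d (k :: W) = lastWt d W := by
  cases W with
  | nil => exact absurd rfl hW
  | cons l W => rfl

theorem dyn_zero (d : κ → ℕ) (F : NC κ F') : dyn d 0 F = 0 := by
  unfold dyn
  simp [lastWt]

theorem dyn_succ (d : κ → ℕ) (n : ℕ) (F : NC κ F') :
    dyn d (n + 1) F =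
      ∑ k, ((F [k] * (d k : F')) • (letter k : NC κ F') + ⁅(letter k : NC κ F'), dyn d n (D k F)⁆) := by
  have h0 : ∀ F : NC κ F', (∑ v : Fin 0 → κ, (F (List.ofFn v) * (lastWt d (List.ofFn v) : F')) •
      (rb (List.ofFn v) : NC κ F')) = 0 := by
    intro F
    simp [lastWt]
  have h1 : ∀ (m : ℕ), (∑ v : Fin (m + 1) → κ, (F (List.ofFn v) * (lastWt d (List.ofFn v) : F')) •
      (rb (List.ofFn v) : NC κ F')) = ∑ k : κ, ∑ w : Fin m → κ,
      (F (k :: List.ofFn w) * (lastWt d (k :: List.ofFn w) : F')) •
      (rb (k :: List.ofFn w) : NC κ F') := by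
    intro m
    rw [← Finset.sum_product', Finset.univ_product_univ]
    refine Fintype.sum_equiv (Fin.consEquiv (fun _ => κ)).symm _ _ fun v => ?_
    have : List.ofFn v = v 0 :: List.ofFn (fun i : Fin m => v i.succ) := List.ofFn_succ
    rw [this]
    rfl
  unfold dyn
  rw [Finset.sum_range_succ', h0, add_zero]
  simp only [h1]
  rw [Finset.sum_comm]
  refine Finset.sum_congr rfl fun k _ => ?_
  rw [Finset.sum_range_succ', Finset.sum_range_succ' _ n, h0 (D k F), add_zero, add_comm]
  congr 1
  · simp [lastWt, rb]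
  · rw [Ring.lie_def, Finset.mul_sum, Finset.sum_mul, ← Finset.sum_sub_distrib]
    refine Finset.sum_congr rfl fun m _ => ?_
    rw [Finset.mul_sum, Finset.sum_mul, ← Finset.sum_sub_distrib]
    refine Finset.sum_congr rfl fun v _ => ?_
    have hv : List.ofFn v ≠ [] := by
      rw [Ne, List.ofFn_eq_nil_iff]
      omega
    rw [rb_cons hv, lastWt_cons d hv, D_apply, mul_smul_comm, smul_mul_assoc, ← smul_sub,
      Ring.lie_def]

end dyn

section main

variable {Y : Type} {κ : Type} [Fintype Y] [DecidableEq Y] [Fintype κ] [DecidableEq κ]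
  {L : Type} [Field L]

theorem subst_lie (h : κ → NC Y L) (h0 : ∀ k, h k [] = 0) (f g : NC κ L) :
    subst h ⁅f, g⁆ = ⁅subst h f, subst h g⁆ := by
  have := (substHom h h0).map_sub (f * g) (g * f)
  rw [map_mul, map_mul] at this
  rw [Ring.lie_def, Ring.lie_def]
  exact this

theorem gam_subst (h : κ → NC Y L) (d : κ → ℕ) (hd : ∀ k, IsHom (d k) (h k))
    (hL : ∀ k, IsLie (h k)) (n : ℕ) : ∀ F : NC κ L, (∀ W : List κ, n < W.length → F W = 0) →
      gam (subst h F) = subst h (dyn d n F) := by
  have h0 : ∀ k, h k [] = 0 := fun k => (hL k).nil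
  induction n with
  | zero =>
    intro F hF
    have : F = C (F []) := by
      ext W
      cases W with
      | nil => rfl
      | cons a W => exact hF _ (by simp)
    rw [this, subst_C h h0, gam_C, dyn_zero, subst_zero h h0]
  | succ n ih =>
    intro F hF
    rw [dyn_succ, subst_eq h h0, gam_add, gam_C, zero_add, gam_sum]
    have e : subst h (∑ k, ((F [k] * (d k : L)) • (letter k : NC κ L) +
        ⁅(letter k : NC κ L), dyn d n (D k F)⁆)) =
        ∑ k, subst h ((F [k] * (d k : L)) • (letter k : NC κ L) +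
        ⁅(letter k : NC κ L), dyn d n (D k F)⁆) := map_sum (substHom h h0) _ _
    rw [e]
    refine Finset.sum_congr rfl fun k _ => ?_
    rw [gam_mul_of_isLie (hL k), ih (D k F) (fun W hW => hF _ (by simpa using hW)),
      subst_add h h0, subst_smul h h0, subst_letter h h0, subst_lie h h0, subst_letter h h0,
      subst_nil, Eu_of_isHom (hd k), smul_smul]
    rfl

omit [DecidableEq κ] [Fintype Y] [DecidableEq Y] in
theorem subst_isHom (h : κ → NC Y L) (d : κ → ℕ) (hd0 : ∀ k, 0 < d k)
    (hd : ∀ k, IsHom (d k) (h k)) (n : ℕ) : ∀ F : NC κ L, (∀ W, wt d W ≠ n → F W = 0) →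
      IsHom n (subst h F) := by
  have h0 : ∀ k, h k [] = 0 := fun k => hd k [] (by have := hd0 k; simp; omega)
  induction n using Nat.strong_induction_on with
  | _ n ih =>
    intro F hF
    rw [subst_eq h h0]
    refine IsHom.add ?_ (IsHom.sum _ fun k _ => ?_)
    · intro w hw
      cases w with
      | nil =>
        rw [C_nil]
        refine hF [] ?_
        rw [wt_nil]
        simpa using hw
      | cons a w => rfl
    · rcases Nat.lt_or_ge n (d k) with hk | hk
      · have : D k F = 0 := by
          ext W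
          refine hF _ ?_
          rw [wt_cons]
          omega
        rw [this, subst_zero h h0, mul_zero]
        exact IsHom.zero n
      · have h1 := ih (n - d k) (by have := hd0 k; omega) (D k F) (fun W hW => hF _ (by
          rw [wt_cons]; omega))
        have h2 := (hd k).mul h1
        rwa [Nat.add_sub_cancel' hk] at h2

omit [Fintype κ] [DecidableEq κ] in
theorem length_le_wt (d : κ → ℕ) (hd0 : ∀ k, 0 < d k) (W : List κ) : W.length ≤ wt d W := by
  induction W with
  | nil => simp
  | cons k W ih =>
    rw [wt_cons, List.length_cons]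
    have := hd0 k
    omega

end main

/-- LEMMA H7-C: the weighted Dynkin–Specht–Wever theorem. -/
theorem dynkin {X κ : Type} [Fintype X] [DecidableEq X] [Fintype κ] [DecidableEq κ]
    {K : Type} [Field K]
    (h : κ → NC X K) (d : κ → ℕ) (hd0 : ∀ k, 0 < d k) (hd : ∀ k, IsHom (d k) (h k))
    (hL : ∀ k, IsLie (h k))
    {n : ℕ} {F : NC κ K} (hF : ∀ W, wt d W ≠ n → F W = 0) (hz : IsLie (subst h F)) :
    (n : K) • subst h F = subst h (dyn d n F) := by
  rw [← gam_subst h d hd hL n F (fun W hW => hF W (by
    have := length_le_wt d hd0 W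
    omega)), gam_of_isLie hz, Eu_of_isHom (subst_isHom h d hd0 hd n F hF)]

end Pool.Agent.Helper59.Dynkin
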