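import Pool.Agent.Helper59.Rup

/-!
The propositional clauses which express that eight rectangles represent a fixed graph.
Boolean variables `p * 16 + q` say `x p ≤ x q`, variables `256 + p * 16 + q` say `y p ≤ y q`,
where the sides of rectangle `i` have numbers `2 * i` (left, bottom) and `2 * i + 1` (right, top).
-/

set_option autoImplicit false

namespace Pool.Agent.Helper59.RigCnf

open Pool.Agent.Helper59.Rup

def xl (p q : ℕ) : ℕ := 64 + 2 * (p * 16 + q)
def xn (p q : ℕ) : ℕ := 64 + 2 * (p * 16 + q) + 1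
def yl (p q : ℕ) : ℕ := 64 + 2 * (256 + p * 16 + q)
def yn (p q : ℕ) : ℕ := 64 + 2 * (256 + p * 16 + q) + 1

/-- order conditions for `A` to see `B` in way `k` -/
def pos (A B k : ℕ) : List ℕ :=
  match k with
  | 0 => [xn (2 * B) (2 * A + 1), yn (2 * A) (2 * B + 1)]
  | 1 => [xn (2 * B) (2 * A + 1), yn (2 * A) (2 * B), yl (2 * A) (2 * B + 1)]
  | _ => [yn (2 * A) (2 * B + 1), xl (2 * B) (2 * A + 1), xn (2 * B + 1) (2 * A + 1)]

/-- order conditions for `C` to block way `k` in which `A` sees `B` -/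
def blk (A B k C : ℕ) : List ℕ :=
  match k with
  | 0 => [xl (2 * C) (2 * B), xl (2 * A + 1) (2 * C + 1), yl (2 * C) (2 * A),
      yl (2 * B + 1) (2 * C + 1)]
  | 1 => [xl (2 * C) (2 * B), xl (2 * A + 1) (2 * C + 1), yl (2 * C) (2 * A),
      yl (2 * A) (2 * C + 1)]
  | _ => [xl (2 * C) (2 * A + 1), xl (2 * A + 1) (2 * C + 1), yl (2 * C) (2 * A),
      yl (2 * B + 1) (2 * C + 1)]

def S (A B k : ℕ) : ℕ := 64 + 2 * (512 + (A * 8 + B) * 3 + k)
def Bv (f k C : ℕ) : ℕ := 64 + 2 * (704 + (f * 3 + k) * 8 + C)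

def neg (l : ℕ) : ℕ := Nat.xor l 1

def others (A B : ℕ) : List ℕ := (List.range 8).filter (fun C => !(Nat.beq C A) && !(Nat.beq C B))

/-- adjacent pairs -/
def edges : List (ℕ × ℕ) :=
  [(0, 1), (0, 4), (0, 5), (0, 6), (0, 7), (1, 2), (1, 4), (1, 5), (1, 6), (1, 7), (2, 3), (2, 4),
   (2, 5), (2, 6), (2, 7), (3, 4), (3, 5), (3, 6), (3, 7), (4, 5), (5, 6), (6, 7)]

/-- ordered non-adjacent pairs -/
def nonD : List (ℕ × ℕ) :=
  [(0, 2), (2, 0), (0, 3), (3, 0), (1, 3), (3, 1), (4, 6), (6, 4), (4, 7), (7, 4), (5, 7), (7, 5)]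

/-- the bit mask of a clause -/
def mask (c : List ℕ) : ℕ := c.foldr (fun l m => Nat.lor (Nat.shiftLeft 1 l) m) 0

/-- the clause with a given code -/
def cl (code : ℕ) : List ℕ :=
  let x := code % 8192
  match code / 8192 with
  | 0 => let p := (x / 256) % 16; let q := (x / 16) % 16; let r := x % 16
    [xn p q, xn q r, xl p r]
  | 1 => let p := (x / 256) % 16; let q := (x / 16) % 16; let r := x % 16
    [yn p q, yn q r, yl p r]
  | 2 => let p := (x / 16) % 16; let q := x % 16
    [xl p q, xl q p]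
  | 3 => let p := (x / 16) % 16; let q := x % 16
    [yl p q, yl q p]
  | 4 => let i := x % 8
    [xn (2 * i + 1) (2 * i)]
  | 5 => let i := x % 8
    [yn (2 * i + 1) (2 * i)]
  | 6 => let i := (x / 8) % 8; let j := x % 8
    if i = j then [64, 65] else
    [xn (2 * j) (2 * i + 1), xn (2 * i) (2 * j + 1), yn (2 * j) (2 * i + 1), yn (2 * i) (2 * j + 1)]
  | 7 =>
    match edges[x]? with
    | some (A, B) => [S A B 0, S A B 1, S A B 2, S B A 0, S B A 1, S B A 2]
    | none => [64, 65]
  | 8 =>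
    let t := x % 3; let k := (x / 3) % 3; let B := (x / 9) % 8; let A := (x / 72) % 8
    match (pos A B k)[t]? with
    | some l => [neg (S A B k), l]
    | none => [64, 65]
  | 9 =>
    let C := x % 8; let k := (x / 8) % 3; let B := (x / 24) % 8; let A := (x / 192) % 8
    if C = A ∨ C = B then [64, 65] else
    neg (S A B k) :: (blk A B k C).map neg
  | 10 =>
    let k := x % 3; let f := x / 3
    match nonD[f]? with
    | some (A, B) => (pos A B k).map neg ++ (others A B).map (Bv f k)
    | none => [64, 65]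
  | 11 =>
    let t := x % 4; let C := (x / 4) % 8; let k := (x / 32) % 3; let f := x / 96
    match nonD[f]? with
    | some (A, B) =>
      (match (blk A B k C)[t]? with
      | some l => [neg (Bv f k C), l]
      | none => [64, 65])
    | none => [64, 65]
  | _ => [64, 65]

def g (code : ℕ) : ℕ := mask (cl code)

end Pool.Agent.Helper59.RigCnf
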