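import Pool.Agent.Helper59.RigCert

/-!
From real coordinates to a satisfying assignment of the clauses in `RigCnf`.
-/

set_option autoImplicit false

namespace Pool.Agent.Helper59.RigSat

open Pool.Agent.Helper59.Rup Pool.Agent.Helper59.RigCnf

/-- order conditions for way `k` in which rectangle `A` can see rectangle `B` -/
def Kpos (xs ys : ℕ → ℝ) (A B k : ℕ) : Prop :=
  match k with
  | 0 => xs (2 * A + 1) < xs (2 * B) ∧ ys (2 * B + 1) < ys (2 * A)
  | 1 => xs (2 * A + 1) < xs (2 * B) ∧ ys (2 * B) < ys (2 * A) ∧ ys (2 * A) ≤ ys (2 * B + 1)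
  | _ => ys (2 * B + 1) < ys (2 * A) ∧ xs (2 * B) ≤ xs (2 * A + 1) ∧
      xs (2 * A + 1) < xs (2 * B + 1)

/-- order conditions for rectangle `C` to block it -/
def Kblk (xs ys : ℕ → ℝ) (A B k C : ℕ) : Prop :=
  match k with
  | 0 => xs (2 * C) ≤ xs (2 * B) ∧ xs (2 * A + 1) ≤ xs (2 * C + 1) ∧ ys (2 * C) ≤ ys (2 * A) ∧
      ys (2 * B + 1) ≤ ys (2 * C + 1)
  | 1 => xs (2 * C) ≤ xs (2 * B) ∧ xs (2 * A + 1) ≤ xs (2 * C + 1) ∧ ys (2 * C) ≤ ys (2 * A) ∧
      ys (2 * A) ≤ ys (2 * C + 1)
  | _ => xs (2 * C) ≤ xs (2 * A + 1) ∧ xs (2 * A + 1) ≤ xs (2 * C + 1) ∧ ys (2 * C) ≤ ys (2 * A) ∧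
      ys (2 * B + 1) ≤ ys (2 * C + 1)

def KS (xs ys : ℕ → ℝ) (A B k : ℕ) : Prop :=
  Kpos xs ys A B k ∧ ∀ C < 8, C ≠ A → C ≠ B → ¬ Kblk xs ys A B k C

open Classical in
/-- the assignment -/
noncomputable def v (xs ys : ℕ → ℝ) (n : ℕ) : Bool :=
  if n < 256 then decide (xs (n / 16) ≤ xs (n % 16))
  else if n < 512 then decide (ys ((n - 256) / 16) ≤ ys ((n - 256) % 16))
  else if n < 704 then decide (KS xs ys ((n - 512) / 24) ((n - 512) / 3 % 8) ((n - 512) % 3))
  else decide (Kblk xs ys (nonD.getD ((n - 704) / 24) (0, 0)).1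
    (nonD.getD ((n - 704) / 24) (0, 0)).2 ((n - 704) / 8 % 3) ((n - 704) % 8))

theorem litVal_pos (w : ℕ → Bool) (n : ℕ) : litVal w (64 + 2 * n) = w n := by
  unfold litVal
  rw [if_neg (by omega)]
  have e1 : (64 + 2 * n - 64) / 2 = n := by omega
  have e2 : (64 + 2 * n) % 2 = 0 := by omega
  rw [e1, e2]
  cases w n <;> rfl

theorem litVal_neg (w : ℕ → Bool) (n : ℕ) : litVal w (64 + 2 * n + 1) = !w n := by
  unfold litVal
  rw [if_neg (by omega)]
  have e1 : (64 + 2 * n + 1 - 64) / 2 = n := by omega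
  have e2 : (64 + 2 * n + 1) % 2 = 1 := by omega
  rw [e1, e2]
  cases w n <;> rfl

variable (xs ys : ℕ → ℝ)

theorem val_xl (p q : ℕ) (hp : p < 16) (hq : q < 16) :
    litVal (v xs ys) (xl p q) = true ↔ xs p ≤ xs q := by
  unfold xl
  rw [litVal_pos]
  unfold v
  rw [if_pos (by omega)]
  have e1 : (p * 16 + q) / 16 = p := by omega
  have e2 : (p * 16 + q) % 16 = q := by omega
  rw [e1, e2]
  simp

theorem val_xn (p q : ℕ) (hp : p < 16) (hq : q < 16) :
    litVal (v xs ys) (xn p q) = true ↔ xs q < xs p := by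
  unfold xn
  rw [litVal_neg]
  unfold v
  rw [if_pos (by omega)]
  have e1 : (p * 16 + q) / 16 = p := by omega
  have e2 : (p * 16 + q) % 16 = q := by omega
  rw [e1, e2]
  simp

theorem val_yl (p q : ℕ) (hp : p < 16) (hq : q < 16) :
    litVal (v xs ys) (yl p q) = true ↔ ys p ≤ ys q := by
  unfold yl
  rw [litVal_pos]
  unfold v
  rw [if_neg (by omega), if_pos (by omega)]
  have e1 : (256 + p * 16 + q - 256) / 16 = p := by omega
  have e2 : (256 + p * 16 + q - 256) % 16 = q := by omega
  rw [e1, e2]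
  simp

theorem val_yn (p q : ℕ) (hp : p < 16) (hq : q < 16) :
    litVal (v xs ys) (yn p q) = true ↔ ys q < ys p := by
  unfold yn
  rw [litVal_neg]
  unfold v
  rw [if_neg (by omega), if_pos (by omega)]
  have e1 : (256 + p * 16 + q - 256) / 16 = p := by omega
  have e2 : (256 + p * 16 + q - 256) % 16 = q := by omega
  rw [e1, e2]
  simp

theorem val_S (A B k : ℕ) (hA : A < 8) (hB : B < 8) (hk : k < 3) :
    litVal (v xs ys) (S A B k) = true ↔ KS xs ys A B k := by
  unfold S
  rw [litVal_pos]
  unfold v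
  rw [if_neg (by omega), if_neg (by omega), if_pos (by omega)]
  have e1 : (512 + (A * 8 + B) * 3 + k - 512) / 24 = A := by omega
  have e2 : (512 + (A * 8 + B) * 3 + k - 512) / 3 % 8 = B := by omega
  have e3 : (512 + (A * 8 + B) * 3 + k - 512) % 3 = k := by omega
  rw [e1, e2, e3]
  simp

theorem val_Bv (f k C : ℕ) (hk : k < 3) (hC : C < 8) :
    litVal (v xs ys) (Bv f k C) = true ↔
      Kblk xs ys (nonD.getD f (0, 0)).1 (nonD.getD f (0, 0)).2 k C := by
  unfold Bv
  rw [litVal_pos]
  unfold v
  rw [if_neg (by omega), if_neg (by omega), if_neg (by omega)]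
  have e1 : (704 + (f * 3 + k) * 8 + C - 704) / 24 = f := by omega
  have e2 : (704 + (f * 3 + k) * 8 + C - 704) / 8 % 3 = k := by omega
  have e3 : (704 + (f * 3 + k) * 8 + C - 704) % 8 = C := by omega
  rw [e1, e2, e3]
  simp

theorem val_neg (w : ℕ → Bool) (l : ℕ) (hl : 64 ≤ l) :
    litVal w (neg l) = true ↔ ¬ litVal w l = true := by
  unfold neg
  rw [litVal_flip w l hl]
  cases litVal w l <;> simp

/-- literals of the order variables -/
theorem pos_ge (A B k l : ℕ) (h : l ∈ pos A B k) : 64 ≤ l := by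
  unfold pos at h
  split at h <;> simp only [List.mem_cons, List.not_mem_nil, or_false] at h <;>
    (simp only [xl, xn, yl, yn] at h; omega)

theorem blk_ge (A B k C l : ℕ) (h : l ∈ blk A B k C) : 64 ≤ l := by
  unfold blk at h
  split at h <;> simp only [List.mem_cons, List.not_mem_nil, or_false] at h <;>
    (simp only [xl, yl] at h; omega)

theorem pos_iff (A B k : ℕ) (hA : A < 8) (hB : B < 8) :
    (∀ l ∈ pos A B k, litVal (v xs ys) l = true) ↔ Kpos xs ys A B k := by
  unfold pos Kpos
  split
  · simp only [List.mem_cons, List.not_mem_nil, or_false, forall_eq_or_imp, forall_eq]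
    rw [val_xn _ _ _ _ (by omega) (by omega), val_yn _ _ _ _ (by omega) (by omega)]
  · simp only [List.mem_cons, List.not_mem_nil, or_false, forall_eq_or_imp, forall_eq]
    rw [val_xn _ _ _ _ (by omega) (by omega), val_yn _ _ _ _ (by omega) (by omega),
      val_yl _ _ _ _ (by omega) (by omega)]
  · simp only [List.mem_cons, List.not_mem_nil, or_false, forall_eq_or_imp, forall_eq]
    rw [val_yn _ _ _ _ (by omega) (by omega), val_xl _ _ _ _ (by omega) (by omega),
      val_xn _ _ _ _ (by omega) (by omega)]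

theorem blk_iff (A B k C : ℕ) (hA : A < 8) (hB : B < 8) (hC : C < 8) :
    (∀ l ∈ blk A B k C, litVal (v xs ys) l = true) ↔ Kblk xs ys A B k C := by
  unfold blk Kblk
  split
  · simp only [List.mem_cons, List.not_mem_nil, or_false, forall_eq_or_imp, forall_eq]
    rw [val_xl _ _ _ _ (by omega) (by omega), val_xl _ _ _ _ (by omega) (by omega),
      val_yl _ _ _ _ (by omega) (by omega), val_yl _ _ _ _ (by omega) (by omega)]
  · simp only [List.mem_cons, List.not_mem_nil, or_false, forall_eq_or_imp, forall_eq]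
    rw [val_xl _ _ _ _ (by omega) (by omega), val_xl _ _ _ _ (by omega) (by omega),
      val_yl _ _ _ _ (by omega) (by omega), val_yl _ _ _ _ (by omega) (by omega)]
  · simp only [List.mem_cons, List.not_mem_nil, or_false, forall_eq_or_imp, forall_eq]
    rw [val_xl _ _ _ _ (by omega) (by omega), val_xl _ _ _ _ (by omega) (by omega),
      val_yl _ _ _ _ (by omega) (by omega), val_yl _ _ _ _ (by omega) (by omega)]

theorem testBit_mask (c : List ℕ) (l : ℕ) (h : l ∈ c) : (mask c).testBit l = true := by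
  induction c with
  | nil => simp at h
  | cons a c ih =>
    have e : mask (a :: c) = (1 <<< a) ||| mask c := rfl
    rw [e, Nat.testBit_or, Bool.or_eq_true]
    rcases List.mem_cons.mp h with h1 | h1
    · left
      rw [h1, Nat.testBit_shiftLeft]
      simp
    · right
      exact ih h1

theorem sat_mask (w : ℕ → Bool) (c : List ℕ) (h : ∃ l ∈ c, litVal w l = true) :
    Sat w (mask c) := by
  obtain ⟨l, hl, hv⟩ := h
  exact ⟨l, testBit_mask c l hl, hv⟩

theorem sat_taut (w : ℕ → Bool) : ∃ l ∈ [64, 65], litVal w l = true := by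
  by_cases h : w 0 = true
  · exact ⟨64, by simp, by
      have := litVal_pos w 0
      simpa [h] using this⟩
  · exact ⟨65, by simp, by
      have := litVal_neg w 0
      simpa [h] using this⟩

theorem beqf (a b : ℕ) : Nat.beq a b = false ↔ a ≠ b := by
  constructor
  · exact Nat.ne_of_beq_eq_false
  · intro h
    cases h' : Nat.beq a b with
    | false => rfl
    | true => exact absurd (Nat.eq_of_beq_eq_true h') h

theorem mem_others (A B C : ℕ) : C ∈ others A B ↔ C < 8 ∧ C ≠ A ∧ C ≠ B := by
  unfold others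
  rw [List.mem_filter, List.mem_range]
  simp [beqf]

/-- the facts about the coordinates which contradict each other -/
structure Facts : Prop where
  hx : ∀ i < 8, xs (2 * i) < xs (2 * i + 1)
  hy : ∀ i < 8, ys (2 * i) < ys (2 * i + 1)
  hd : ∀ i < 8, ∀ j < 8, i ≠ j → xs (2 * i + 1) < xs (2 * j) ∨ xs (2 * j + 1) < xs (2 * i) ∨
    ys (2 * i + 1) < ys (2 * j) ∨ ys (2 * j + 1) < ys (2 * i)
  he : ∀ p ∈ edges, ∃ k < 3, KS xs ys p.1 p.2 k ∨ KS xs ys p.2 p.1 k
  hn : ∀ p ∈ nonD, ∀ k < 3, ¬ KS xs ys p.1 p.2 k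

variable {xs ys}

theorem sat_cl (H : Facts xs ys) (code : ℕ) : ∃ l ∈ cl code, litVal (v xs ys) l = true := by
  unfold cl
  simp only
  generalize code % 8192 = x
  split
  · -- transitivity for x
    by_cases h1 : xs (x / 16 % 16) < xs (x / 256 % 16)
    · exact ⟨_, List.mem_cons_self, (val_xn xs ys _ _ (by omega) (by omega)).mpr h1⟩
    by_cases h2 : xs (x % 16) < xs (x / 16 % 16)
    · exact ⟨_, List.mem_cons_of_mem _ List.mem_cons_self,
        (val_xn xs ys _ _ (by omega) (by omega)).mpr h2⟩
    · exact ⟨_, List.mem_cons_of_mem _ (List.mem_cons_of_mem _ List.mem_cons_self),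
        (val_xl xs ys _ _ (by omega) (by omega)).mpr
          (le_trans (not_lt.mp h1) (not_lt.mp h2))⟩
  · -- transitivity for y
    by_cases h1 : ys (x / 16 % 16) < ys (x / 256 % 16)
    · exact ⟨_, List.mem_cons_self, (val_yn xs ys _ _ (by omega) (by omega)).mpr h1⟩
    by_cases h2 : ys (x % 16) < ys (x / 16 % 16)
    · exact ⟨_, List.mem_cons_of_mem _ List.mem_cons_self,
        (val_yn xs ys _ _ (by omega) (by omega)).mpr h2⟩
    · exact ⟨_, List.mem_cons_of_mem _ (List.mem_cons_of_mem _ List.mem_cons_self),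
        (val_yl xs ys _ _ (by omega) (by omega)).mpr
          (le_trans (not_lt.mp h1) (not_lt.mp h2))⟩
  · rcases le_total (xs (x / 16 % 16)) (xs (x % 16)) with h | h
    · exact ⟨_, List.mem_cons_self, (val_xl xs ys _ _ (by omega) (by omega)).mpr h⟩
    · exact ⟨_, List.mem_cons_of_mem _ List.mem_cons_self,
        (val_xl xs ys _ _ (by omega) (by omega)).mpr h⟩
  · rcases le_total (ys (x / 16 % 16)) (ys (x % 16)) with h | h
    · exact ⟨_, List.mem_cons_self, (val_yl xs ys _ _ (by omega) (by omega)).mpr h⟩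
    · exact ⟨_, List.mem_cons_of_mem _ List.mem_cons_self,
        (val_yl xs ys _ _ (by omega) (by omega)).mpr h⟩
  · exact ⟨_, List.mem_cons_self, (val_xn xs ys _ _ (by omega) (by omega)).mpr
      (H.hx (x % 8) (by omega))⟩
  · exact ⟨_, List.mem_cons_self, (val_yn xs ys _ _ (by omega) (by omega)).mpr
      (H.hy (x % 8) (by omega))⟩
  · -- disjointness
    split
    · exact sat_taut _
    · rename_i hij
      rcases H.hd (x / 8 % 8) (by omega) (x % 8) (by omega) hij with h | h | h | h
      · exact ⟨_, List.mem_cons_self, (val_xn xs ys _ _ (by omega) (by omega)).mpr h⟩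
      · exact ⟨_, List.mem_cons_of_mem _ List.mem_cons_self,
          (val_xn xs ys _ _ (by omega) (by omega)).mpr h⟩
      · exact ⟨_, List.mem_cons_of_mem _ (List.mem_cons_of_mem _ List.mem_cons_self),
          (val_yn xs ys _ _ (by omega) (by omega)).mpr h⟩
      · exact ⟨_, List.mem_cons_of_mem _ (List.mem_cons_of_mem _ (List.mem_cons_of_mem _
          List.mem_cons_self)), (val_yn xs ys _ _ (by omega) (by omega)).mpr h⟩
  · -- edges
    split
    · rename_i A B hAB
      have hmem : (A, B) ∈ edges := List.mem_of_getElem? hAB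
      have hlt : ∀ p ∈ edges, p.1 < 8 ∧ p.2 < 8 := by decide
      obtain ⟨hA, hB⟩ := hlt _ hmem
      simp only at hA hB
      obtain ⟨k, hk, h | h⟩ := H.he _ hmem
      · refine ⟨S A B k, ?_, (val_S xs ys A B k hA hB hk).mpr h⟩
        interval_cases k <;> simp
      · refine ⟨S B A k, ?_, (val_S xs ys B A k hB hA hk).mpr h⟩
        interval_cases k <;> simp
    · exact sat_taut _
  · -- S implies the order conditions
    split
    · rename_i l hl
      have hmem := List.mem_of_getElem? hl
      by_cases h : KS xs ys (x / 72 % 8) (x / 9 % 8) (x / 3 % 3)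
      · refine ⟨l, by simp, ?_⟩
        exact (pos_iff xs ys _ _ _ (by omega) (by omega)).mpr h.1 l hmem
      · refine ⟨_, List.mem_cons_self, ?_⟩
        rw [val_neg _ _ (by unfold S; omega), val_S xs ys _ _ _ (by omega) (by omega) (by omega)]
        exact h
    · exact sat_taut _
  · -- S implies that nothing blocks
    split
    · exact sat_taut _
    · rename_i hC
      push Not at hC
      by_cases h : KS xs ys (x / 192 % 8) (x / 24 % 8) (x / 8 % 3)
      · have h1 := h.2 (x % 8) (by omega) hC.1 hC.2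
        rw [← blk_iff xs ys _ _ _ _ (by omega) (by omega) (by omega)] at h1
        push Not at h1
        obtain ⟨l, hl, hv⟩ := h1
        refine ⟨neg l, List.mem_cons_of_mem _ (List.mem_map_of_mem hl), ?_⟩
        rw [val_neg _ _ (blk_ge _ _ _ _ _ hl)]
        exact hv
      · refine ⟨_, List.mem_cons_self, ?_⟩
        rw [val_neg _ _ (by unfold S; omega), val_S xs ys _ _ _ (by omega) (by omega) (by omega)]
        exact h
  · -- non-edges
    split
    · rename_i A B hAB
      have hmem : (A, B) ∈ nonD := List.mem_of_getElem? hAB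
      have hlt : ∀ p ∈ nonD, p.1 < 8 ∧ p.2 < 8 := by decide
      obtain ⟨hA, hB⟩ := hlt _ hmem
      simp only at hA hB
      have hget : nonD.getD (x / 3) (0, 0) = (A, B) := by
        rw [List.getD_eq_getElem?_getD, hAB]
        rfl
      have hno := H.hn _ hmem (x % 3) (by omega)
      simp only at hno
      unfold KS at hno
      by_cases hp : Kpos xs ys A B (x % 3)
      · have h2 : ¬ ∀ C < 8, C ≠ A → C ≠ B → ¬ Kblk xs ys A B (x % 3) C := fun h => hno ⟨hp, h⟩
        push Not at h2
        obtain ⟨C, hC8, hCA, hCB, hb⟩ := h2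
        refine ⟨Bv (x / 3) (x % 3) C, ?_, ?_⟩
        · apply List.mem_append_right
          apply List.mem_map_of_mem
          rw [mem_others]
          exact ⟨hC8, hCA, hCB⟩
        · rw [val_Bv xs ys _ _ _ (by omega) hC8, hget]
          exact hb
      · rw [← pos_iff xs ys _ _ _ hA hB] at hp
        push Not at hp
        obtain ⟨l, hl, hv⟩ := hp
        refine ⟨neg l, List.mem_append_left _ (List.mem_map_of_mem hl), ?_⟩
        rw [val_neg _ _ (pos_ge _ _ _ _ hl)]
        exact hv
    · exact sat_taut _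
  · -- blocking variables
    split
    · rename_i A B hAB
      have hmem : (A, B) ∈ nonD := List.mem_of_getElem? hAB
      have hlt : ∀ p ∈ nonD, p.1 < 8 ∧ p.2 < 8 := by decide
      obtain ⟨hA, hB⟩ := hlt _ hmem
      simp only at hA hB
      have hget : nonD.getD (x / 96) (0, 0) = (A, B) := by
        rw [List.getD_eq_getElem?_getD, hAB]
        rfl
      split
      · rename_i l hl
        have hml := List.mem_of_getElem? hl
        by_cases h : Kblk xs ys A B (x / 32 % 3) (x / 4 % 8)
        · refine ⟨l, by simp, ?_⟩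
          exact (blk_iff xs ys _ _ _ _ hA hB (by omega)).mpr h l hml
        · refine ⟨_, List.mem_cons_self, ?_⟩
          rw [val_neg _ _ (by unfold Bv; omega), val_Bv xs ys _ _ _ (by omega) (by omega), hget]
          exact h
      · exact sat_taut _
    · exact sat_taut _
  · exact sat_taut _

theorem contra (H : Facts xs ys) : False := by
  refine check_sound RigCert.db g RigCert.codes RigCert.steps (by decide +kernel) RigCert.cert
    (v xs ys) ?_
  intro c
  exact sat_mask _ _ (sat_cl H c)

end Pool.Agent.Helper59.RigSat
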