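import Mathlib

/-!
A small reverse-unit-propagation checker which runs well inside the kernel.
Clauses are natural numbers read as bit masks over literal codes
(`64 + 2 * x` is the positive and `64 + 2 * x + 1` the negative literal of variable `x`; the lowest
64 bits of a mask carry no meaning, they only spread the hash values inside the kernel).
All clauses, the given ones and the derived ones, sit in one static tree; the check makes sure
that each derived clause only uses clauses with a smaller index.
-/

set_option autoImplicit false

namespace Pool.Agent.Helper59.Rup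

/-- evaluate `f` at `n` after forcing `n` to a literal -/
def force {α : Type} (n : ℕ) (f : ℕ → α) : α :=
  Nat.rec (motive := fun _ => α) (f 0) (fun k _ => f (Nat.succ k)) n

theorem force_eq {α : Type} (n : ℕ) (f : ℕ → α) : force n f = f n := by
  cases n <;> rfl

/-- truth value of the literal with code `l`; codes below `64` are not used (they are always
false), the other codes are `64 + 2 * x` and `64 + 2 * x + 1` for a variable `x` -/
def litVal (v : ℕ → Bool) (l : ℕ) : Bool :=
  if l < 64 then false else xor (v ((l - 64) / 2)) (l % 2 == 1)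

theorem litVal_flip (v : ℕ → Bool) (l : ℕ) (hl : 64 ≤ l) :
    litVal v (Nat.xor l 1) = !litVal v l := by
  rcases Nat.mod_two_eq_zero_or_one l with h0 | h0
  · have h : Nat.xor l 1 = l + 1 := Nat.xor_one_of_even (Nat.even_iff.mpr h0)
    rw [h]
    unfold litVal
    rw [if_neg (by omega), if_neg (by omega)]
    have e1 : (l + 1 - 64) / 2 = (l - 64) / 2 := by omega
    have e2 : (l + 1) % 2 = 1 := by omega
    rw [e1, e2, h0]
    cases v ((l - 64) / 2) <;> rfl
  · have h : Nat.xor l 1 = l - 1 := Nat.xor_one_of_odd (Nat.odd_iff.mpr h0)
    rw [h]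
    unfold litVal
    rw [if_neg (by omega), if_neg (by omega)]
    have e1 : (l - 1 - 64) / 2 = (l - 64) / 2 := by omega
    have e2 : (l - 1) % 2 = 0 := by omega
    rw [e1, e2, h0]
    cases v ((l - 64) / 2) <;> rfl

theorem litVal_low (v : ℕ → Bool) (l : ℕ) (hl : l < 64) : litVal v l = false := by
  unfold litVal
  rw [if_pos hl]

/-- the clause with mask `c` holds under `v` -/
def Sat (v : ℕ → Bool) (c : ℕ) : Prop := ∃ l, c.testBit l = true ∧ litVal v l = true

theorem Sat.of_shift {v : ℕ → Bool} {c d : ℕ} (h : Nat.shiftRight c 64 = Nat.shiftRight d 64)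
    (hc : Sat v c) : Sat v d := by
  obtain ⟨l, hl, hv⟩ := hc
  have h64 : 64 ≤ l := by
    by_contra hcon
    rw [litVal_low v l (by omega)] at hv
    exact absurd hv (by decide)
  refine ⟨l, ?_, hv⟩
  have h' : c >>> 64 = d >>> 64 := h
  have e1 : (c >>> 64).testBit (l - 64) = c.testBit l := by
    rw [Nat.testBit_shiftRight]
    congr 1
    omega
  have e2 : (d >>> 64).testBit (l - 64) = d.testBit l := by
    rw [Nat.testBit_shiftRight]
    congr 1
    omega
  rw [← e2, ← h', e1]
  exact hl

theorem not_sat_zero (v : ℕ → Bool) (c : ℕ) (hc : Nat.shiftRight c 64 = 0) : ¬ Sat v c := by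
  intro h
  have h0 : Nat.shiftRight c 64 = Nat.shiftRight 0 64 := by rw [hc]; rfl
  obtain ⟨l, hl, _⟩ := h.of_shift h0
  simp at hl

/-- static arrays, indexed by the binary digits of the index (lowest digit first) -/
inductive Arr : Type
  | leaf : ℕ → Arr
  | node : Arr → Arr → Arr

noncomputable def Arr.get (t : Arr) : ℕ → ℕ :=
  Arr.rec (motive := fun _ => ℕ → ℕ) (fun c _ => c)
    (fun _ _ ihl ihr i =>
      cond (Nat.beq (Nat.land i 1) 0) (ihl (Nat.shiftRight i 1)) (ihr (Nat.shiftRight i 1))) t

/-- one clause check: `F` is the mask of falsified literals, `hs` packs the hints in base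
`2 ^ 26`: 14 bits for a clause index plus one, 12 bits for the literal which becomes unit (zero for
the last hint, whose clause must be falsified); only clause indices `< id` are allowed -/
noncomputable def rup (db : Arr) (id : ℕ) (fuel : ℕ) : ℕ → ℕ → Bool :=
  Nat.rec (motive := fun _ => ℕ → ℕ → Bool) (fun _ _ => false)
    (fun _ ih F hs =>
      force (Nat.land hs 16383) fun h =>
      cond (Nat.ble h id)
      (force (db.get h) fun c =>
       force (Nat.land (Nat.shiftRight hs 14) 4095) fun l =>
       cond (Nat.beq l 0) (Nat.beq (Nat.land c F) c)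
        (cond (Nat.beq (Nat.lor (Nat.land c F) (Nat.shiftLeft 1 l)) c)
          (force (Nat.xor (Nat.lor F (Nat.shiftLeft 1 (Nat.xor l 1)))
              (Nat.shiftLeft (Nat.land hs 67108863) 32)) fun F' =>
            force (Nat.shiftRight hs 26) fun hs' => ih F' hs') false)) false) fuel

theorem testBit_mid (y l : ℕ) (hl : 64 ≤ l) (hy : y < 2 ^ 32) : (y <<< 32).testBit l = false := by
  apply Nat.testBit_lt_two_pow
  rw [Nat.shiftLeft_eq]
  calc y * 2 ^ 32 < 2 ^ 32 * 2 ^ 32 := by
        exact Nat.mul_lt_mul_of_pos_right hy (by norm_num)
    _ = 2 ^ 64 := by norm_num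
    _ ≤ 2 ^ l := Nat.pow_le_pow_right (by norm_num) hl

theorem rup_sound (v : ℕ → Bool) (db : Arr) (id : ℕ) (hdb : ∀ i, i ≤ id → Sat v (db.get i))
    (fuel : ℕ) : ∀ (F hs : ℕ), rup db id fuel F hs = true →
      ¬ (∀ l, F.testBit l = true → 64 ≤ l → litVal v l = false) := by
  induction fuel with
  | zero => intro F hs h; exact absurd h (by simp [rup])
  | succ n ih =>
    intro F hs h hF
    have e : rup db id (n + 1) F hs = (force (Nat.land hs 16383) fun h =>
      cond (Nat.ble h id)
      (force (db.get h) fun c =>
       force (Nat.land (Nat.shiftRight hs 14) 4095) fun l =>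
       cond (Nat.beq l 0) (Nat.beq (Nat.land c F) c)
        (cond (Nat.beq (Nat.lor (Nat.land c F) (Nat.shiftLeft 1 l)) c)
          (force (Nat.xor (Nat.lor F (Nat.shiftLeft 1 (Nat.xor l 1)))
              (Nat.shiftLeft (Nat.land hs 67108863) 32)) fun F' =>
            force (Nat.shiftRight hs 26) fun hs' => rup db id n F' hs') false)) false) := rfl
    rw [e] at h
    simp only [force_eq] at h
    cases h1' : Nat.ble (Nat.land hs 16383) id
    · rw [h1'] at h
      simp at h
    rw [h1'] at h
    simp only [cond_true] at h
    have hle : Nat.land hs 16383 ≤ id := Nat.le_of_ble_eq_true h1'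
    have hsat := hdb _ hle
    generalize db.get (Nat.land hs 16383) = c at h hsat
    obtain ⟨l0, hl0, hv0⟩ := hsat
    have h64 : 64 ≤ l0 := by
      by_contra hcon
      rw [litVal_low v l0 (by omega)] at hv0
      exact absurd hv0 (by decide)
    have hl0F : F.testBit l0 = false := by
      by_contra hcon
      have := hF l0 (by simpa using hcon) h64
      rw [hv0] at this
      exact absurd this (by decide)
    generalize Nat.land (Nat.shiftRight hs 14) 4095 = l1 at h
    cases h2 : Nat.beq l1 0
    · rw [h2] at h
      simp only [cond_false] at h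
      cases h3 : Nat.beq (Nat.lor (Nat.land c F) (Nat.shiftLeft 1 l1)) c
      · rw [h3] at h
        simp at h
      · rw [h3] at h
        simp only [cond_true] at h
        have h4 : (c &&& F) ||| (1 <<< l1) = c := Nat.eq_of_beq_eq_true h3
        have h5 : l1 = l0 := by
          rw [← h4, Nat.testBit_or, Nat.testBit_and, hl0F, Bool.and_false, Bool.false_or,
            Nat.testBit_shiftLeft] at hl0
          simp only [Bool.and_eq_true, decide_eq_true_eq] at hl0
          obtain ⟨ha, hb⟩ := hl0
          have hz := Nat.testBit_one_eq_true_iff_self_eq_zero.mp hb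
          omega
        refine ih _ _ h ?_
        intro l hl hl64
        have e2 : Nat.xor (Nat.lor F (Nat.shiftLeft 1 (Nat.xor l1 1)))
              (Nat.shiftLeft (Nat.land hs 67108863) 32) =
          (F ||| (1 <<< (Nat.xor l1 1))) ^^^ ((hs &&& 67108863) <<< 32) := rfl
        have hlt : hs &&& 67108863 < 2 ^ 32 :=
          lt_of_le_of_lt Nat.and_le_right (by norm_num)
        rw [e2, Nat.testBit_xor, testBit_mid _ l hl64 hlt, Bool.xor_false, Nat.testBit_or,
          Bool.or_eq_true] at hl
        rcases hl with hl | hl
        · exact hF l hl hl64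
        · rw [Nat.testBit_shiftLeft] at hl
          simp only [Bool.and_eq_true, decide_eq_true_eq] at hl
          obtain ⟨ha, hb⟩ := hl
          have hz := Nat.testBit_one_eq_true_iff_self_eq_zero.mp hb
          have : l = Nat.xor l1 1 := by omega
          rw [this, h5, litVal_flip v l0 h64, hv0]
          rfl
    · rw [h2] at h
      simp only [cond_true] at h
      have h4 : c &&& F = c := Nat.eq_of_beq_eq_true h
      rw [← h4, Nat.testBit_and, hl0F] at hl0
      simp at hl0

/-- derived clauses have consecutive indices starting from `id + 1`; the last one must be empty -/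
noncomputable def run (db : Arr) (steps : List ℕ) : ℕ → Bool :=
  List.rec (motive := fun _ => ℕ → Bool) (fun _ => false)
    (fun hs _ ih id =>
      force (Nat.succ id) fun id' =>
      force (db.get id') fun c =>
      force (Nat.xor (Nat.lor c 4294967295) (Nat.shiftLeft (Nat.land id 16383) 32)) fun F =>
      cond (rup db id 4096 F hs)
        (cond (Nat.beq (Nat.shiftRight c 64) 0) true (ih id')) false) steps

theorem testBit_low (l : ℕ) (hl : 64 ≤ l) : Nat.testBit 4294967295 l = false := by
  apply Nat.testBit_lt_two_pow
  calc (4294967295 : ℕ) < 2 ^ 64 := by norm_num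
      _ ≤ 2 ^ l := Nat.pow_le_pow_right (by norm_num) (by omega)

theorem run_sound (v : ℕ → Bool) (db : Arr) (steps : List ℕ) : ∀ (id : ℕ),
    (∀ i, i ≤ id → Sat v (db.get i)) → run db steps id = false := by
  induction steps with
  | nil => intro id _; rfl
  | cons hs rest ih =>
    intro id hdb
    have e : run db (hs :: rest) id =
      force (Nat.succ id) fun id' =>
      force (db.get id') fun c =>
      force (Nat.xor (Nat.lor c 4294967295) (Nat.shiftLeft (Nat.land id 16383) 32)) fun F =>
      cond (rup db id 4096 F hs)
        (cond (Nat.beq (Nat.shiftRight c 64) 0) true (run db rest id')) false := rfl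
    rw [e]
    simp only [force_eq]
    generalize hF0 : Nat.xor (Nat.lor (db.get (Nat.succ id)) 4294967295)
      (Nat.shiftLeft (Nat.land id 16383) 32) = F0
    cases h1 : rup db id 4096 F0 hs
    · rfl
    · have hsat : Sat v (db.get (Nat.succ id)) := by
        by_contra hcon
        apply rup_sound v db id hdb 4096 _ _ h1
        intro l hl hl64
        have e3 : Nat.xor (Nat.lor (db.get (Nat.succ id)) 4294967295)
            (Nat.shiftLeft (Nat.land id 16383) 32) =
          (db.get (Nat.succ id) ||| 4294967295) ^^^ ((id &&& 16383) <<< 32) := rfl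
        have hlt : id &&& 16383 < 2 ^ 32 :=
          lt_of_le_of_lt Nat.and_le_right (by norm_num)
        rw [← hF0, e3, Nat.testBit_xor, testBit_mid _ l hl64 hlt, Bool.xor_false, Nat.testBit_or,
          testBit_low l hl64, Bool.or_false] at hl
        by_contra hne
        exact hcon ⟨l, hl, by simpa using hne⟩
      simp only [cond_true]
      cases h2 : Nat.beq (Nat.shiftRight (db.get (Nat.succ id)) 64) 0
      · simp only [cond_false]
        apply ih
        intro i hi
        rcases Nat.of_le_succ hi with h | h
        · exact hdb i h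
        · rw [h]
          exact hsat
      · exact absurd hsat (not_sat_zero v _ (Nat.eq_of_beq_eq_true h2))

/-- the given clauses: entry number `id + k` of the tree is `g` applied to the `k`-th code -/
noncomputable def base (db : Arr) (g : ℕ → ℕ) (codes : List ℕ) : ℕ → Bool :=
  List.rec (motive := fun _ => ℕ → Bool) (fun _ => true)
    (fun c _ ih id =>
      cond (Nat.beq (Nat.shiftRight (g c) 64) (Nat.shiftRight (db.get id) 64))
        (force (Nat.succ id) fun id' => ih id') false) codes

theorem base_sound (v : ℕ → Bool) (db : Arr) (g : ℕ → ℕ) (hg : ∀ c, Sat v (g c))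
    (codes : List ℕ) : ∀ (id : ℕ), base db g codes id = true →
    ∀ i, id ≤ i → i < id + codes.length → Sat v (db.get i) := by
  induction codes with
  | nil => intro id _ i h1 h2; simp at h2; omega
  | cons c rest ih =>
    intro id h i h1 h2
    have e : base db g (c :: rest) id =
      cond (Nat.beq (Nat.shiftRight (g c) 64) (Nat.shiftRight (db.get id) 64))
        (force (Nat.succ id) fun id' => base db g rest id') false :=
        rfl
    rw [e] at h
    simp only [force_eq] at h
    cases h3 : Nat.beq (Nat.shiftRight (g c) 64) (Nat.shiftRight (db.get id) 64)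
    · rw [h3] at h
      simp at h
    · rw [h3] at h
      simp only [cond_true] at h
      rcases Nat.eq_or_lt_of_le h1 with h4 | h4
      · rw [← h4]
        exact (hg c).of_shift (Nat.eq_of_beq_eq_true h3)
      · refine ih _ h i h4 ?_
        simp only [List.length_cons] at h2
        have e5 : Nat.succ id = id + 1 := rfl
        rw [e5]
        omega

/-- the certificate check -/
noncomputable def check (db : Arr) (g : ℕ → ℕ) (codes : List ℕ) (steps : List ℕ) : Bool :=
  (base db g codes 0) && run db steps (codes.length - 1)

theorem check_sound (db : Arr) (g : ℕ → ℕ) (codes steps : List ℕ) (hne : 0 < codes.length)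
    (h : check db g codes steps = true) (v : ℕ → Bool) : ¬ ∀ c, Sat v (g c) := by
  intro hg
  unfold check at h
  rw [Bool.and_eq_true] at h
  have h1 := base_sound v db g hg codes 0 h.1
  have h2 := run_sound v db steps (codes.length - 1) (fun i hi => h1 i (by omega) (by omega))
  rw [h2] at h
  exact absurd h.2 (by decide)

end Pool.Agent.Helper59.Rup
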